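import Pool.Agent.Helper69.SZ.Energy

set_option autoImplicit false
set_option linter.unusedSectionVars false

namespace Pool.Agent.Helper69.SZ

open Finset Polynomial

/-- A bump on `[0, 2h]`. -/
noncomputable def G (h : ℤ) (α : ℤ) : ℝ :=
  if 0 ≤ α ∧ α ≤ 2 * h then ((α : ℝ) * (2 * h - α)) ^ 2 else 0

theorem G_zero {h α : ℤ} (hα : α ≤ 0 ∨ 2 * h ≤ α) : G h α = 0 := by
  unfold G
  split_ifs with hh
  · rcases hα with h1 | h1
    · have : α = 0 := le_antisymm h1 hh.1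
      simp [this]
    · have : α = 2 * h := le_antisymm hh.2 h1
      rw [this]; push_cast; ring
  · rfl

theorem G_pos {h α : ℤ} (h1 : 0 ≤ α) (h2 : α ≤ 2 * h) : G h α = ((α : ℝ) * (2 * h - α)) ^ 2 := by
  unfold G; rw [if_pos ⟨h1, h2⟩]

theorem G_nonneg (h α : ℤ) : 0 ≤ G h α := by
  unfold G; split_ifs <;> positivity

theorem G_le {h : ℤ} (hh : 1 ≤ h) (α : ℤ) : G h α ≤ (h : ℝ) ^ 4 := by
  unfold G
  split_ifs with h1
  · have a : (0 : ℝ) ≤ α := by exact_mod_cast h1.1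
    have b : (α : ℝ) ≤ 2 * h := by exact_mod_cast h1.2
    have c : (0 : ℝ) ≤ α * (2 * h - α) := mul_nonneg a (by linarith)
    have d : (α : ℝ) * (2 * h - α) ≤ h ^ 2 := by nlinarith [sq_nonneg ((h : ℝ) - α)]
    calc ((α : ℝ) * (2 * h - α)) ^ 2 ≤ ((h : ℝ) ^ 2) ^ 2 := pow_le_pow_left₀ c d 2
      _ = (h : ℝ) ^ 4 := by ring
  · have : (0 : ℝ) < h := by exact_mod_cast hh
    positivity

theorem G_d1 {h : ℤ} (hh : 1 ≤ h) (α : ℤ) : |G h (α + 1) - G h α| ≤ 4 * (h : ℝ) ^ 3 := by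
  have h0 : (1 : ℝ) ≤ h := by exact_mod_cast hh
  by_cases h1 : 0 ≤ α ∧ α + 1 ≤ 2 * h
  · rw [G_pos (by omega) h1.2, G_pos h1.1 (by omega)]
    have a : (0 : ℝ) ≤ α := by exact_mod_cast h1.1
    have b : (α : ℝ) + 1 ≤ 2 * h := by exact_mod_cast h1.2
    push_cast
    have e : (((α : ℝ) + 1) * (2 * h - (α + 1))) ^ 2 - (α * (2 * h - α)) ^ 2 =
        (2 * h - 2 * α - 1) * ((α + 1) * (2 * h - (α + 1)) + α * (2 * h - α)) := by ring
    rw [e, abs_mul]
    have c1 : |2 * (h : ℝ) - 2 * α - 1| ≤ 2 * h := by rw [abs_le]; constructor <;> linarith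
    have c2 : |((α : ℝ) + 1) * (2 * h - (α + 1)) + α * (2 * h - α)| ≤ 2 * h ^ 2 := by
      have p1 : 0 ≤ ((α : ℝ) + 1) * (2 * h - (α + 1)) := mul_nonneg (by linarith) (by linarith)
      have p2 : 0 ≤ (α : ℝ) * (2 * h - α) := mul_nonneg (by linarith) (by linarith)
      rw [abs_of_nonneg (add_nonneg p1 p2)]
      nlinarith [sq_nonneg ((h : ℝ) - α), sq_nonneg ((h : ℝ) - (α + 1))]
    calc |2 * (h : ℝ) - 2 * α - 1| * |((α : ℝ) + 1) * (2 * h - (α + 1)) + α * (2 * h - α)|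
        ≤ (2 * h) * (2 * h ^ 2) := mul_le_mul c1 c2 (abs_nonneg _) (by linarith)
      _ = 4 * (h : ℝ) ^ 3 := by ring
  · have z1 : G h (α + 1) = 0 := G_zero (by omega)
    have z2 : G h α = 0 := G_zero (by omega)
    rw [z1, z2]
    simp
    positivity

theorem G_d2 {h : ℤ} (hh : 1 ≤ h) (α : ℤ) :
    |G h (α + 1) - 2 * G h α + G h (α - 1)| ≤ 12 * (h : ℝ) ^ 2 := by
  have h0 : (1 : ℝ) ≤ h := by exact_mod_cast hh
  by_cases h1 : 1 ≤ α ∧ α + 1 ≤ 2 * h
  · rw [G_pos (by omega) h1.2, G_pos (by omega) (by omega), G_pos (by omega) (by omega)]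
    have a : (1 : ℝ) ≤ α := by exact_mod_cast h1.1
    have b : (α : ℝ) + 1 ≤ 2 * h := by exact_mod_cast h1.2
    push_cast
    rw [abs_le]
    constructor
    · nlinarith [sq_nonneg ((h : ℝ) - α)]
    · nlinarith [mul_nonneg (sub_nonneg.2 a) (sub_nonneg.2 b)]
  · by_cases h2 : α = 0
    · subst h2
      rw [G_zero (α := 0) (Or.inl le_rfl), G_zero (α := 0 - 1) (by omega), zero_add,
        G_pos (by omega) (by omega)]
      push_cast
      rw [abs_le]
      constructor <;> nlinarith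
    · by_cases h3 : α = 2 * h
      · subst h3
        rw [G_zero (α := 2 * h) (Or.inr le_rfl), G_zero (α := 2 * h + 1) (by omega),
          G_pos (by omega) (by omega)]
        push_cast
        rw [abs_le]
        constructor <;> nlinarith
      · have z1 : G h (α + 1) = 0 := G_zero (by omega)
        have z2 : G h α = 0 := G_zero (by omega)
        have z3 : G h (α - 1) = 0 := G_zero (by omega)
        rw [z1, z2, z3]
        simp
        positivity

/-- The product bump. -/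
noncomputable def psi (h S i : ℤ) : ℝ := G h (i - h) * G h (S - i - h)

theorem psi_zero {h S i : ℤ} (hi : i ≤ h ∨ 3 * h ≤ i ∨ S - i ≤ h ∨ 3 * h ≤ S - i) :
    psi h S i = 0 := by
  unfold psi
  rcases hi with h1 | h1 | h1 | h1
  · rw [G_zero (Or.inl (by omega)), zero_mul]
  · rw [G_zero (Or.inr (by omega)), zero_mul]
  · rw [G_zero (α := S - i - h) (Or.inl (by omega)), mul_zero]
  · rw [G_zero (α := S - i - h) (Or.inr (by omega)), mul_zero]

noncomputable def phi (h S i : ℤ) : ℝ := psi h S (i - 1) - 2 * psi h S i + psi h S (i + 1)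

theorem phi_zero {h S i : ℤ} (hi : i < h ∨ 3 * h < i ∨ S - i < h ∨ 3 * h < S - i) :
    phi h S i = 0 := by
  unfold phi
  rw [psi_zero (by omega), psi_zero (by omega), psi_zero (by omega)]
  simp

theorem phi_le {h : ℤ} (hh : 1 ≤ h) (S i : ℤ) : |phi h S i| ≤ 56 * (h : ℝ) ^ 6 := by
  have h0 : (1 : ℝ) ≤ h := by exact_mod_cast hh
  unfold phi psi
  have e1 : i - 1 - h = i - h - 1 := by ring
  have e2 : S - (i - 1) - h = S - i - h + 1 := by ring
  have e3 : i + 1 - h = i - h + 1 := by ring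
  have e4 : S - (i + 1) - h = S - i - h - 1 := by ring
  rw [e1, e2, e3, e4]
  set α := i - h
  set β := S - i - h
  have a0 := G_le hh α
  have a0' := G_nonneg h α
  have b0 := G_le hh β
  have b0' := G_nonneg h β
  have a1 := G_d1 hh α
  have a2 := G_d1 hh (α - 1)
  have b1 := G_d1 hh β
  have b2 := G_d1 hh (β - 1)
  rw [sub_add_cancel] at a2 b2
  have a3 := G_d2 hh α
  have b3 := G_d2 hh β
  have e : G h (α - 1) * G h (β + 1) - 2 * (G h α * G h β) + G h (α + 1) * G h (β - 1) =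
      (G h (α + 1) - G h α) * (G h (β - 1) - G h β) + (G h (α - 1) - G h α) * (G h (β + 1) - G h β)
      + G h α * (G h (β + 1) - 2 * G h β + G h (β - 1)) +
      G h β * (G h (α + 1) - 2 * G h α + G h (α - 1)) := by ring
  rw [e]
  have t1 : |(G h (α + 1) - G h α) * (G h (β - 1) - G h β)| ≤ 16 * (h : ℝ) ^ 6 := by
    rw [abs_mul, abs_sub_comm (G h (β - 1))]
    calc _ ≤ (4 * (h : ℝ) ^ 3) * (4 * (h : ℝ) ^ 3) := mul_le_mul a1 b2 (abs_nonneg _) (by positivity)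
      _ = _ := by ring
  have t2 : |(G h (α - 1) - G h α) * (G h (β + 1) - G h β)| ≤ 16 * (h : ℝ) ^ 6 := by
    rw [abs_mul, abs_sub_comm (G h (α - 1))]
    calc _ ≤ (4 * (h : ℝ) ^ 3) * (4 * (h : ℝ) ^ 3) := mul_le_mul a2 b1 (abs_nonneg _) (by positivity)
      _ = _ := by ring
  have t3 : |G h α * (G h (β + 1) - 2 * G h β + G h (β - 1))| ≤ 12 * (h : ℝ) ^ 6 := by
    rw [abs_mul, abs_of_nonneg a0']
    calc _ ≤ ((h : ℝ) ^ 4) * (12 * (h : ℝ) ^ 2) := mul_le_mul a0 b3 (abs_nonneg _) (by positivity)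
      _ = _ := by ring
  have t4 : |G h β * (G h (α + 1) - 2 * G h α + G h (α - 1))| ≤ 12 * (h : ℝ) ^ 6 := by
    rw [abs_mul, abs_of_nonneg b0']
    calc _ ≤ ((h : ℝ) ^ 4) * (12 * (h : ℝ) ^ 2) := mul_le_mul b0 a3 (abs_nonneg _) (by positivity)
      _ = _ := by ring
  rw [abs_le] at *
  constructor <;> linarith [t1.1, t1.2, t2.1, t2.2, t3.1, t3.2, t4.1, t4.2]

theorem sum_parts (ψ f : ℤ → ℂ) (a b : ℤ) (h0 : ∀ i, i ≤ a ∨ b ≤ i → ψ i = 0) :
    ∑ i ∈ Finset.Icc a b, ψ i * (f (i + 1) - 2 * f i + f (i - 1)) =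
      ∑ i ∈ Finset.Icc a b, (ψ (i - 1) - 2 * ψ i + ψ (i + 1)) * f i := by
  have out : ∀ i, i ∉ Finset.Icc a b → i < a ∨ b < i := by
    intro i hi
    rw [Finset.mem_Icc, not_and_or, not_le, not_le] at hi
    exact hi
  have h1 : ∑ i ∈ Finset.Icc a b, ψ i * f (i + 1) = ∑ i ∈ Finset.Icc a b, ψ (i - 1) * f i := by
    have t1 : ∑' i, ψ i * f (i + 1) = ∑ i ∈ Finset.Icc a b, ψ i * f (i + 1) :=
      tsum_eq_sum (fun i hi => by
        have := out i hi
        rw [h0 i (by omega), zero_mul])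
    have t2 : ∑' i, ψ (i - 1) * f i = ∑ i ∈ Finset.Icc a b, ψ (i - 1) * f i :=
      tsum_eq_sum (fun i hi => by
        have := out i hi
        rw [h0 (i - 1) (by omega), zero_mul])
    have t3 := (Equiv.subRight (1 : ℤ)).tsum_eq (fun i => ψ i * f (i + 1))
    simp only [Equiv.subRight_apply, sub_add_cancel] at t3
    rw [← t1, ← t2, ← t3]
  have h2 : ∑ i ∈ Finset.Icc a b, ψ i * f (i - 1) = ∑ i ∈ Finset.Icc a b, ψ (i + 1) * f i := by
    have t1 : ∑' i, ψ i * f (i - 1) = ∑ i ∈ Finset.Icc a b, ψ i * f (i - 1) :=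
      tsum_eq_sum (fun i hi => by
        have := out i hi
        rw [h0 i (by omega), zero_mul])
    have t2 : ∑' i, ψ (i + 1) * f i = ∑ i ∈ Finset.Icc a b, ψ (i + 1) * f i :=
      tsum_eq_sum (fun i hi => by
        have := out i hi
        rw [h0 (i + 1) (by omega), zero_mul])
    have t3 := (Equiv.addRight (1 : ℤ)).tsum_eq (fun i => ψ i * f (i - 1))
    simp only [Equiv.coe_addRight, add_sub_cancel_right] at t3
    rw [← t1, ← t2, ← t3]
  have e1 : ∑ i ∈ Finset.Icc a b, ψ i * (f (i + 1) - 2 * f i + f (i - 1)) =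
      (∑ i ∈ Finset.Icc a b, ψ i * f (i + 1)) - 2 * (∑ i ∈ Finset.Icc a b, ψ i * f i) +
        ∑ i ∈ Finset.Icc a b, ψ i * f (i - 1) := by
    rw [Finset.mul_sum, ← Finset.sum_sub_distrib, ← Finset.sum_add_distrib]
    exact Finset.sum_congr rfl fun i _ => by ring
  have e2 : ∑ i ∈ Finset.Icc a b, (ψ (i - 1) - 2 * ψ i + ψ (i + 1)) * f i =
      (∑ i ∈ Finset.Icc a b, ψ (i - 1) * f i) - 2 * (∑ i ∈ Finset.Icc a b, ψ i * f i) +
        ∑ i ∈ Finset.Icc a b, ψ (i + 1) * f i := by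
    rw [Finset.mul_sum, ← Finset.sum_sub_distrib, ← Finset.sum_add_distrib]
    exact Finset.sum_congr rfl fun i _ => by ring
  rw [e1, e2, h1, h2]

end Pool.Agent.Helper69.SZ
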