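import Pool.Agent.Helper69.SZ.Block

set_option autoImplicit false
set_option linter.unusedSectionVars false

namespace Pool.Agent.Helper69.SZ

open Finset Polynomial

/-- The windowed polynomial. -/
noncomputable def PP (c : ℤ → ℂ) (h : ℕ) : ℂ[X] :=
  ∑ q ∈ Finset.range (3 * h + 1), Polynomial.C ((G h ((q : ℤ) - h) : ℂ) * c q) * Polynomial.X ^ q

theorem PP_coeff (c : ℤ → ℂ) (h q : ℕ) :
    (PP c h).coeff q = (G h ((q : ℤ) - h) : ℂ) * c q := by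
  unfold PP
  rw [Polynomial.finsetSum_coeff]
  simp only [Polynomial.coeff_C_mul_X_pow]
  by_cases hq : q ∈ Finset.range (3 * h + 1)
  · rw [Finset.sum_eq_single q]
    · simp
    · intro b _ hb
      rw [if_neg (Ne.symm hb)]
    · intro hh; exact absurd hq hh
  · rw [Finset.mem_range, not_lt] at hq
    rw [G_zero (Or.inr (by omega))]
    rw [Finset.sum_eq_zero]
    · simp
    · intro x hx
      rw [Finset.mem_range] at hx
      rw [if_neg (by omega)]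

theorem PP_deg (c : ℤ → ℂ) (h : ℕ) : (PP c h).natDegree ≤ 3 * h := by
  unfold PP
  refine Polynomial.natDegree_sum_le_of_forall_le _ _ fun q hq => ?_
  refine (Polynomial.natDegree_C_mul_X_pow_le _ _).trans ?_
  rw [Finset.mem_range] at hq
  omega

theorem PP_sq_coeff (c : ℤ → ℂ) (h S : ℕ) :
    (PP c h * PP c h).coeff S =
      ∑ i ∈ Finset.Icc (h : ℤ) (3 * h), (psi h S i : ℂ) * (c (S - i) * c i) := by
  rw [Polynomial.coeff_mul, Finset.Nat.sum_antidiagonal_eq_sum_range_succ_mk]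
  have hz : ∀ i : ℤ, (psi h S i : ℂ) * (c (S - i) * c i) ≠ 0 → (h : ℤ) < i ∧ i < 3 * h ∧
      (h : ℤ) < S - i ∧ S - i < 3 * h := by
    intro i hi
    by_contra hcon
    apply hi
    rw [psi_zero (by omega)]
    simp
  have ht : ∀ i ∈ Finset.range S.succ, (PP c h).coeff i * (PP c h).coeff (S - i) =
      (psi h S (i : ℤ) : ℂ) * (c (S - (i : ℤ)) * c (i : ℤ)) := by
    intro i hi
    have hi' : i ≤ S := by simpa [Nat.lt_succ_iff] using hi
    rw [PP_coeff, PP_coeff, psi, Nat.cast_sub hi']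
    push_cast
    ring
  rw [Finset.sum_congr rfl ht]
  refine Finset.sum_bij_ne_zero (fun i _ _ => (i : ℤ)) ?_ ?_ ?_ ?_
  · intro i _ h2
    have := hz _ h2
    rw [Finset.mem_Icc]
    omega
  · intro i _ _ j _ _ hij
    exact_mod_cast hij
  · intro b _ h2
    have := hz _ h2
    refine ⟨b.toNat, ?_, ?_, ?_⟩
    · rw [Finset.mem_range]; omega
    · rw [Int.toNat_of_nonneg (by omega)]; exact h2
    · exact Int.toNat_of_nonneg (by omega)
  · intro i _ _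
    rfl

variable {c : ℤ → ℂ} {F : ℤ → ℤ → ℂ}

theorem coeff_F (hF : ∀ m n, F (m - 1) (n + 1) - 2 * F m n + F (m + 1) (n - 1) = 2 * (c m * c n))
    (h S : ℕ) : 2 * (PP c h * PP c h).coeff S =
      ∑ i ∈ Finset.Icc (h : ℤ) (3 * h), (phi h S i : ℂ) * F (S - i) i := by
  rw [PP_sq_coeff, Finset.mul_sum]
  have h1 := sum_parts (fun i => (psi h S i : ℂ)) (fun i => F (S - i) i) h (3 * h) (by
    intro i hi
    rw [psi_zero (by omega)]; simp)
  have h2 : ∑ i ∈ Finset.Icc (h : ℤ) (3 * h), 2 * ((psi h S i : ℂ) * (c (S - i) * c i)) =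
      ∑ i ∈ Finset.Icc (h : ℤ) (3 * h), (psi h S i : ℂ) * (F (S - (i + 1)) (i + 1) -
        2 * F (S - i) i + F (S - (i - 1)) (i - 1)) := by
    refine Finset.sum_congr rfl fun i _ => ?_
    have := hF (S - i) i
    rw [show (S : ℤ) - (i + 1) = S - i - 1 by ring, show (S : ℤ) - (i - 1) = S - i + 1 by ring, this]
    ring
  rw [h2, h1]
  refine Finset.sum_congr rfl fun i _ => ?_
  simp only [phi]
  push_cast
  ring

theorem coeff_le (hF : ∀ m n, F (m - 1) (n + 1) - 2 * F m n + F (m + 1) (n - 1) = 2 * (c m * c n))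
    {h : ℕ} (hh : 1 ≤ h) (S : ℕ) : ‖(PP c h * PP c h).coeff S‖ ^ 2 ≤
      2352 * (h : ℝ) ^ 13 * ∑ i ∈ (Finset.Icc (h : ℤ) (3 * h)).filter
        (fun i => (S : ℤ) - i ∈ Finset.Icc (h : ℤ) (3 * h)), ‖F (S - i) i‖ ^ 2 := by
  have h0 := coeff_F hF h S
  have h1 : ∑ i ∈ Finset.Icc (h : ℤ) (3 * h), (phi h S i : ℂ) * F (S - i) i =
      ∑ i ∈ (Finset.Icc (h : ℤ) (3 * h)).filter
        (fun i => (S : ℤ) - i ∈ Finset.Icc (h : ℤ) (3 * h)), (phi h S i : ℂ) * F (S - i) i := by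
    rw [Finset.sum_filter]
    refine Finset.sum_congr rfl fun i _ => ?_
    split_ifs with hi
    · rfl
    · rw [Finset.mem_Icc, not_and_or, not_le, not_le] at hi
      rw [phi_zero (by omega)]; simp
  rw [h1] at h0
  set K := (Finset.Icc (h : ℤ) (3 * h)).filter
        (fun i => (S : ℤ) - i ∈ Finset.Icc (h : ℤ) (3 * h)) with hK
  have hh1 : (1 : ℝ) ≤ h := by exact_mod_cast hh
  have h2 : ‖2 * (PP c h * PP c h).coeff S‖ ≤ ∑ i ∈ K, |phi h S i| * ‖F (S - i) i‖ := by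
    rw [h0]
    refine (norm_sum_le _ _).trans (le_of_eq ?_)
    refine Finset.sum_congr rfl fun i _ => ?_
    rw [norm_mul, Complex.norm_real, Real.norm_eq_abs]
  have h3 : (∑ i ∈ K, |phi h S i| * ‖F (S - i) i‖) ^ 2 ≤
      (∑ i ∈ K, |phi h S i| ^ 2) * ∑ i ∈ K, ‖F (S - i) i‖ ^ 2 :=
    Finset.sum_mul_sq_le_sq_mul_sq _ _ _
  have h4 : ∑ i ∈ K, |phi h S i| ^ 2 ≤ 3 * (h : ℝ) * (56 * (h : ℝ) ^ 6) ^ 2 := by
    calc ∑ i ∈ K, |phi h S i| ^ 2 ≤ ∑ i ∈ K, (56 * (h : ℝ) ^ 6) ^ 2 :=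
          Finset.sum_le_sum fun i _ => pow_le_pow_left₀ (abs_nonneg _)
            (phi_le (by exact_mod_cast hh) S i) 2
      _ = (K.card : ℝ) * (56 * (h : ℝ) ^ 6) ^ 2 := by rw [Finset.sum_const, nsmul_eq_mul]
      _ ≤ 3 * (h : ℝ) * (56 * (h : ℝ) ^ 6) ^ 2 := by
          refine mul_le_mul_of_nonneg_right ?_ (by positivity)
          have : K.card ≤ 3 * h := by
            refine (Finset.card_filter_le _ _).trans ?_
            rw [Int.card_Icc]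
            omega
          exact_mod_cast this
  have h5 : ‖2 * (PP c h * PP c h).coeff S‖ ^ 2 ≤
      3 * (h : ℝ) * (56 * (h : ℝ) ^ 6) ^ 2 * ∑ i ∈ K, ‖F (S - i) i‖ ^ 2 :=
    (pow_le_pow_left₀ (norm_nonneg _) h2 2).trans (h3.trans
      (mul_le_mul_of_nonneg_right h4 (Finset.sum_nonneg fun _ _ => by positivity)))
  rw [norm_mul] at h5
  have h6 : ‖(2 : ℂ)‖ = 2 := by simp
  rw [h6] at h5
  nlinarith [h5]

theorem sum_diag (F : ℤ → ℤ → ℂ) (h : ℕ) :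
    ∑ S ∈ Finset.range (2 * (3 * h) + 1), ∑ i ∈ (Finset.Icc (h : ℤ) (3 * h)).filter
        (fun i => (S : ℤ) - i ∈ Finset.Icc (h : ℤ) (3 * h)), ‖F (S - i) i‖ ^ 2 ≤
      ∑ m ∈ Finset.Icc (h : ℤ) (3 * h), ∑ n ∈ Finset.Icc (h : ℤ) (3 * h), ‖F m n‖ ^ 2 := by
  rw [Finset.sum_sigma', ← Finset.sum_product']
  refine le_of_eq_of_le (Finset.sum_image (s := ((Finset.range (2 * (3 * h) + 1)).sigma fun S => (Finset.Icc (h : ℤ) (3 * h)).filter
        (fun i => (S : ℤ) - i ∈ Finset.Icc (h : ℤ) (3 * h)))) (g := fun x => (((x.1 : ℤ) - x.2, x.2) : ℤ × ℤ))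
        (f := fun y => ‖F y.1 y.2‖ ^ 2) ?_).symm ?_
  · rintro ⟨S, i⟩ _ ⟨T, j⟩ _ hx
    simp only [Prod.mk.injEq] at hx
    obtain ⟨hx1, hx2⟩ := hx
    subst hx2
    have : S = T := by omega
    subst this
    rfl
  · refine Finset.sum_le_sum_of_subset_of_nonneg ?_ fun _ _ _ => by positivity
    intro y hy
    rw [Finset.mem_image] at hy
    obtain ⟨⟨S, i⟩, hx, rfl⟩ := hy
    rw [Finset.mem_sigma, Finset.mem_filter] at hx
    exact Finset.mem_product.2 ⟨hx.2.2, hx.2.1⟩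

theorem block1 (hF : ∀ m n, F (m - 1) (n + 1) - 2 * F m n + F (m + 1) (n - 1) = 2 * (c m * c n))
    {h : ℕ} (hh : 1 ≤ h) :
    (h : ℝ) ^ 3 * (∑ q ∈ (Finset.range (3 * h + 1)).filter (fun q => 4 * h ≤ 3 * q ∧ 3 * q < 8 * h),
      ‖c q‖ ^ 2) ^ 2 ≤
      10 ^ 6 * ∑ m ∈ Finset.Icc (h : ℤ) (3 * h), ∑ n ∈ Finset.Icc (h : ℤ) (3 * h), ‖F m n‖ ^ 2 := by
  have hh1 : (1 : ℝ) ≤ h := by exact_mod_cast hh
  set D := ∑ m ∈ Finset.Icc (h : ℤ) (3 * h), ∑ n ∈ Finset.Icc (h : ℤ) (3 * h), ‖F m n‖ ^ 2 with hD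
  set E := ∑ q ∈ (Finset.range (3 * h + 1)).filter (fun q => 4 * h ≤ 3 * q ∧ 3 * q < 8 * h),
      ‖c q‖ ^ 2 with hE
  have h1 := energy (PP c h) (3 * h) (PP_deg c h)
  have h2 : ∑ S ∈ Finset.range (2 * (3 * h) + 1), ‖(PP c h * PP c h).coeff S‖ ^ 2 ≤
      2352 * (h : ℝ) ^ 13 * D := by
    refine (Finset.sum_le_sum fun S _ => coeff_le hF hh S).trans ?_
    rw [← Finset.mul_sum]
    exact mul_le_mul_of_nonneg_left (sum_diag F h) (by positivity)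
  have h3 : ((h : ℝ) ^ 8 / 16) * E ≤ ∑ q ∈ Finset.range (3 * h + 1), ‖(PP c h).coeff q‖ ^ 2 := by
    rw [hE, Finset.mul_sum]
    refine (Finset.sum_le_sum fun q hq => ?_).trans
      (Finset.sum_le_sum_of_subset_of_nonneg (Finset.filter_subset
        (fun q => 4 * h ≤ 3 * q ∧ 3 * q < 8 * h) _) fun _ _ _ => by positivity)
    rw [PP_coeff, norm_mul, mul_pow, Complex.norm_real, Real.norm_eq_abs, abs_of_nonneg (G_nonneg _ _)]
    refine mul_le_mul_of_nonneg_right ?_ (by positivity)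
    rw [Finset.mem_filter] at hq
    obtain ⟨_, hq1, hq2⟩ := hq
    have a1 : (4 : ℝ) * h ≤ 3 * q := by exact_mod_cast hq1
    have a2 : (3 : ℝ) * q < 8 * h := by exact_mod_cast hq2
    rw [G_pos (by omega) (by omega)]
    push_cast
    have b1 : (h : ℝ) ^ 2 / 2 ≤ ((q : ℝ) - h) * (2 * h - (q - h)) := by nlinarith
    have b2 : ((h : ℝ) ^ 2 / 2) ^ 4 ≤ (((q : ℝ) - h) * (2 * h - (q - h))) ^ 4 :=
      pow_le_pow_left₀ (by positivity) b1 4
    calc (h : ℝ) ^ 8 / 16 = ((h : ℝ) ^ 2 / 2) ^ 4 := by ring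
      _ ≤ _ := b2
      _ = _ := by ring
  have hE0 : 0 ≤ E := Finset.sum_nonneg fun _ _ => by positivity
  have h4 : (((h : ℝ) ^ 8 / 16) * E) ^ 2 ≤ 2352 * (h : ℝ) ^ 13 * D :=
    (pow_le_pow_left₀ (by positivity) h3 2).trans (h1.trans h2)
  have h5 : (h : ℝ) ^ 13 * ((h : ℝ) ^ 3 * E ^ 2) ≤ (h : ℝ) ^ 13 * (602112 * D) := by
    nlinarith [h4]
  have h6 : (h : ℝ) ^ 3 * E ^ 2 ≤ 602112 * D := le_of_mul_le_mul_left h5 (by positivity)
  have hD0 : 0 ≤ D := Finset.sum_nonneg fun _ _ => Finset.sum_nonneg fun _ _ => by positivity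
  linarith

end Pool.Agent.Helper69.SZ
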