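import Pool.Agent.Helper69.SZ.Klein

set_option autoImplicit false
set_option linter.unusedSectionVars false

namespace Pool.Agent.Helper69.SZ

open Module LinearMap Finset
open scoped InnerProductSpace

section
variable {E : Type} [NormedAddCommGroup E] [InnerProductSpace ℂ E] [FiniteDimensional ℂ E]
variable {ι : Type} [Fintype ι]

theorem sq_rpow_half (x : ℝ) (hx : 0 ≤ x) (m : ℕ) : (x ^ 2) ^ (((m : ℝ) + 2) / 2) = x ^ (m + 2) := by
  rw [← Real.rpow_natCast, ← Real.rpow_mul hx, ← Real.rpow_natCast]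
  congr 1
  push_cast
  ring

theorem peierls {n : ℕ} (ζ : OrthonormalBasis (Fin n) ℂ E) (z : Fin n → ℝ)
    (Z : E →ₗ[ℂ] E) (hZs : Z.IsSymmetric) (hζ : ∀ l, Z (ζ l) = (z l : ℂ) • ζ l)
    (e : OrthonormalBasis ι ℂ E) (m : ℕ) :
    ∑ x, ‖Z (e x)‖ ^ (m + 2) ≤ ∑ l, |z l| ^ (m + 2) := by
  have hZn : ∀ v : E, ‖Z v‖ ^ 2 = ∑ l, ‖⟪ζ l, v⟫_ℂ‖ ^ 2 * |z l| ^ 2 := by
    intro v
    rw [← parseval ζ]
    refine Finset.sum_congr rfl fun l _ => ?_
    rw [← hZs, hζ, inner_smul_left, norm_mul, mul_pow, RCLike.norm_conj, Complex.norm_real,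
      Real.norm_eq_abs, mul_comm]
  have h1 : ∀ x, ‖Z (e x)‖ ^ (m + 2) ≤ ∑ l, ‖⟪ζ l, e x⟫_ℂ‖ ^ 2 * |z l| ^ (m + 2) := by
    intro x
    rw [← sq_rpow_half _ (norm_nonneg _), hZn]
    have := Real.rpow_arith_mean_le_arith_mean_rpow Finset.univ (fun l => ‖⟪ζ l, e x⟫_ℂ‖ ^ 2)
      (fun l => |z l| ^ 2) (fun l _ => by positivity)
      (by rw [parseval ζ, e.norm_eq_one]; norm_num) (fun l _ => by positivity)
      (p := ((m : ℝ) + 2) / 2) (by
        have : (0 : ℝ) ≤ m := Nat.cast_nonneg m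
        linarith)
    refine this.trans (le_of_eq (Finset.sum_congr rfl fun l _ => ?_))
    rw [sq_rpow_half _ (abs_nonneg _)]
  calc ∑ x, ‖Z (e x)‖ ^ (m + 2) ≤ ∑ x, ∑ l, ‖⟪ζ l, e x⟫_ℂ‖ ^ 2 * |z l| ^ (m + 2) :=
        Finset.sum_le_sum fun x _ => h1 x
    _ = ∑ l, |z l| ^ (m + 2) := by
        rw [Finset.sum_comm]
        refine Finset.sum_congr rfl fun l _ => ?_
        rw [← Finset.sum_mul]
        have : ∑ i, ‖⟪ζ l, e i⟫_ℂ‖ ^ 2 = 1 := by
          have h2 : ∀ i, ‖⟪ζ l, e i⟫_ℂ‖ ^ 2 = ‖⟪e i, ζ l⟫_ℂ‖ ^ 2 := fun i => by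
            rw [norm_inner_symm]
          simp only [h2]
          rw [parseval e, ζ.norm_eq_one]; norm_num
        rw [this, one_mul]

/-- One half of the matrix inequality. -/
theorem half {n : ℕ} (hn : finrank ℂ E = n) (w : OrthonormalBasis (Fin n) ℂ E) (t : Fin n → ℝ)
    (G : E →ₗ[ℂ] E) (hG : G.IsSymmetric) (hp : ∀ v, 0 ≤ (⟪v, G v⟫_ℂ).re)
    (ht0 : ∀ i, 0 ≤ t i) (ht : ∀ i, t i ≤ (⟪w i, G (w i)⟫_ℂ).re)
    (e : OrthonormalBasis ι ℂ E) (m : ℕ) :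
    ∑ x, ‖(G - dg w t) (e x)‖ ^ (m + 2) ≤
      2 * ((trace ℂ E (G ^ (m + 2))).re - ∑ i, t i ^ (m + 2)) := by
  have hZs : (G - dg w t).IsSymmetric := hG.sub (dg_symm w t)
  have hu : ∀ j, G (hG.eigenvectorBasis hn j) =
      (hG.eigenvalues hn j : ℂ) • hG.eigenvectorBasis hn j := fun j => hG.apply_eigenvectorBasis hn j
  have hζ : ∀ j, (G - dg w t) (hZs.eigenvectorBasis hn j) =
      (hZs.eigenvalues hn j : ℂ) • hZs.eigenvectorBasis hn j :=
    fun j => hZs.apply_eigenvectorBasis hn j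
  have hg : ∀ j, 0 ≤ hG.eigenvalues hn j := by
    intro j
    have := hp (hG.eigenvectorBasis hn j)
    rw [hu, inner_smul_right, inner_self_eq_norm_sq_to_K, OrthonormalBasis.norm_eq_one] at this
    simpa using this
  have hs := strong_klein (hG.eigenvectorBasis hn) w (hZs.eigenvectorBasis hn)
    (hG.eigenvalues hn) t (hZs.eigenvalues hn) G hG hu hζ hg ht0 ht m
  have htr : (trace ℂ E (G ^ (m + 2))).re = ∑ j, hG.eigenvalues hn j ^ (m + 2) := by
    rw [LinearMap.trace_eq_sum_inner _ (hG.eigenvectorBasis hn), Complex.re_sum]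
    refine Finset.sum_congr rfl fun j _ => ?_
    rw [eig_pow (hu j), inner_smul_right, inner_self_eq_norm_sq_to_K,
      OrthonormalBasis.norm_eq_one]
    simp only [Complex.coe_algebraMap, Complex.ofReal_one, one_pow, mul_one, Complex.ofReal_re]
  have hpe := peierls (hZs.eigenvectorBasis hn) (hZs.eigenvalues hn) _ hZs hζ e m
  rw [htr]
  linarith

theorem mul_pow_comm' {A : Type} [Monoid A] (a b : A) (n : ℕ) :
    a * (b * a) ^ n = (a * b) ^ n * a := by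
  induction n with
  | zero => simp
  | succ n ih => rw [pow_succ, ← mul_assoc, ih, pow_succ]; simp only [mul_assoc]

/-- The matrix inequality. -/
theorem matrix_ineq (X Y : E →ₗ[ℂ] E) (hXY : Y = X.adjoint) (e : OrthonormalBasis ι ℂ E) (m : ℕ) :
    ∑ x, ‖(X * Y - Y * X) (e x)‖ ^ (m + 2) ≤ 2 ^ (m + 3) *
      ((trace ℂ E ((X * Y) ^ (m + 2))).re - (trace ℂ E (X ^ (2 * (m + 2)))).re) := by
  obtain ⟨w, hw⟩ := exists_schur _ E rfl X
  set t : Fin (finrank ℂ E) → ℝ := fun i => ‖⟪w i, X (w i)⟫_ℂ‖ ^ 2 with ht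
  have ht0 : ∀ i, 0 ≤ t i := fun i => by positivity
  have hY : ∀ u v, ⟪u, Y v⟫_ℂ = ⟪X u, v⟫_ℂ := fun u v => by
    rw [hXY, LinearMap.adjoint_inner_right]
  have hX : ∀ u v, ⟪u, X v⟫_ℂ = ⟪Y u, v⟫_ℂ := fun u v => by
    rw [hXY, LinearMap.adjoint_inner_left]
  have G1 : (X * Y).IsSymmetric := by
    intro u v
    rw [Module.End.mul_apply, Module.End.mul_apply, hX, ← hY]
  have G2 : (Y * X).IsSymmetric := by
    intro u v
    rw [Module.End.mul_apply, Module.End.mul_apply, hY, ← hX]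
  have e1 : ∀ v, ⟪v, (X * Y) v⟫_ℂ = ((‖Y v‖ ^ 2 : ℝ) : ℂ) := fun v => by
    rw [Module.End.mul_apply, hX, inner_self_eq_norm_sq_to_K]; simp
  have e2 : ∀ v, ⟪v, (Y * X) v⟫_ℂ = ((‖X v‖ ^ 2 : ℝ) : ℂ) := fun v => by
    rw [Module.End.mul_apply, hY, inner_self_eq_norm_sq_to_K]; simp
  have t1 : ∀ i, t i ≤ (⟪w i, (X * Y) (w i)⟫_ℂ).re := by
    intro i
    rw [e1, Complex.ofReal_re, ht]
    simp only
    rw [hX]
    have := norm_inner_le_norm (𝕜 := ℂ) (Y (w i)) (w i)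
    rw [w.norm_eq_one, mul_one] at this
    exact pow_le_pow_left₀ (norm_nonneg _) this 2
  have t2 : ∀ i, t i ≤ (⟪w i, (Y * X) (w i)⟫_ℂ).re := by
    intro i
    rw [e2, Complex.ofReal_re, ht]
    simp only
    have := norm_inner_le_norm (𝕜 := ℂ) (w i) (X (w i))
    rw [w.norm_eq_one, one_mul] at this
    exact pow_le_pow_left₀ (norm_nonneg _) this 2
  have h1 := half rfl w t (X * Y) G1 (fun v => by rw [e1, Complex.ofReal_re]; positivity) ht0 t1 e m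
  have h2 := half rfl w t (Y * X) G2 (fun v => by rw [e2, Complex.ofReal_re]; positivity) ht0 t2 e m
  have htr : trace ℂ E ((Y * X) ^ (m + 2)) = trace ℂ E ((X * Y) ^ (m + 2)) := by
    have : (X * Y) ^ (m + 2) = X * ((Y * X) ^ (m + 1) * Y) := by
      rw [← mul_assoc, mul_pow_comm', mul_assoc, ← pow_succ]
    rw [this, LinearMap.trace_mul_comm, mul_assoc, ← pow_succ]
  rw [htr] at h2
  have h3 : (trace ℂ E (X ^ (2 * (m + 2)))).re ≤ ∑ i, t i ^ (m + 2) := by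
    rw [LinearMap.trace_eq_sum_inner _ w, Complex.re_sum]
    refine Finset.sum_le_sum fun i _ => ?_
    rw [(tri_pow w X hw _).2 i, ht]
    simp only
    rw [← pow_mul, ← norm_pow]
    exact Complex.re_le_norm _
  have h4 : ∀ x, ‖(X * Y - Y * X) (e x)‖ ^ (m + 2) ≤ 2 ^ (m + 1) *
      (‖(X * Y - dg w t) (e x)‖ ^ (m + 2) + ‖(Y * X - dg w t) (e x)‖ ^ (m + 2)) := by
    intro x
    have : (X * Y - Y * X) (e x) = (X * Y - dg w t) (e x) - (Y * X - dg w t) (e x) := by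
      simp only [LinearMap.sub_apply]; abel
    rw [this]
    refine (pow_le_pow_left₀ (norm_nonneg _) (norm_sub_le _ _) _).trans ?_
    exact add_pow_le (norm_nonneg _) (norm_nonneg _) (m + 2)
  refine (Finset.sum_le_sum fun x _ => h4 x).trans ?_
  rw [← Finset.mul_sum, Finset.sum_add_distrib]
  have h5 : ∑ x, ‖(X * Y - dg w t) (e x)‖ ^ (m + 2) + ∑ x, ‖(Y * X - dg w t) (e x)‖ ^ (m + 2) ≤
      4 * ((trace ℂ E ((X * Y) ^ (m + 2))).re - (trace ℂ E (X ^ (2 * (m + 2)))).re) := by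
    linarith
  refine (mul_le_mul_of_nonneg_left h5 (by positivity)).trans (le_of_eq ?_)
  ring

end

end Pool.Agent.Helper69.SZ
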