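import Pool.Agent.Helper69.SZ.Block1
import Pool.Agent.Helper69.SZ.Main1

set_option autoImplicit false
set_option linter.unusedSectionVars false

namespace Pool.Agent.Helper69.SZ

open Finset

theorem power_mean {ι : Type*} (s : Finset ι) (f : ι → ℝ) (hf : ∀ i ∈ s, 0 ≤ f i) (m : ℕ) :
    (∑ i ∈ s, f i ^ 2) ^ (m + 2) ≤ (s.card : ℝ) ^ m * (∑ i ∈ s, f i ^ (m + 2)) ^ 2 := by
  have hm : (0 : ℝ) ≤ m := Nat.cast_nonneg m
  have h2 := Real.rpow_sum_le_const_mul_sum_rpow_of_nonneg (s := s) (f := fun i => f i ^ 2)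
    (p := ((m : ℝ) + 2) / 2) (by linarith) (fun i _ => by positivity)
  have h3 : ∑ i ∈ s, (f i ^ 2) ^ (((m : ℝ) + 2) / 2) = ∑ i ∈ s, f i ^ (m + 2) :=
    Finset.sum_congr rfl fun i hi => sq_rpow_half _ (hf i hi) m
  rw [h3] at h2
  have h4 : 0 ≤ ∑ i ∈ s, f i ^ 2 := Finset.sum_nonneg fun i _ => by positivity
  have h5 : 0 ≤ (∑ i ∈ s, f i ^ 2) ^ (((m : ℝ) + 2) / 2) := Real.rpow_nonneg h4 _
  have h6 := pow_le_pow_left₀ h5 h2 2
  have h7 : ((∑ i ∈ s, f i ^ 2) ^ (((m : ℝ) + 2) / 2)) ^ 2 = (∑ i ∈ s, f i ^ 2) ^ (m + 2) := by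
    rw [← Real.rpow_natCast, ← Real.rpow_mul h4, ← Real.rpow_natCast]
    congr 1
    push_cast
    ring
  have h8 : (((s.card : ℝ)) ^ (((m : ℝ) + 2) / 2 - 1)) ^ 2 = (s.card : ℝ) ^ m := by
    rw [← Real.rpow_natCast, ← Real.rpow_mul (Nat.cast_nonneg _), ← Real.rpow_natCast]
    congr 1
    push_cast
    ring
  rw [h7, mul_pow, h8] at h6
  exact h6

theorem sum_pow_le {ι : Type*} (s : Finset ι) (f : ι → ℝ) (hf : ∀ i ∈ s, 0 ≤ f i) (m : ℕ) :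
    ∑ i ∈ s, f i ^ (m + 1) ≤ (∑ i ∈ s, f i) ^ (m + 1) := by
  rw [pow_succ', Finset.sum_mul]
  refine Finset.sum_le_sum fun i hi => ?_
  rw [pow_succ']
  exact mul_le_mul_of_nonneg_left (pow_le_pow_left₀ (hf i hi) (Finset.single_le_sum hf hi) m)
    (hf i hi)

variable {c : ℤ → ℂ} {F : ℤ → ℤ → ℂ}

theorem block2 (hF : ∀ m n, F (m - 1) (n + 1) - 2 * F m n + F (m + 1) (n - 1) = 2 * (c m * c n))
    (m : ℕ) {h B : ℕ} (hh : 1 ≤ h) (hB : 3 * h ≤ B) :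
    ∑ q ∈ (Finset.range (3 * h + 1)).filter (fun q => 4 * h ≤ 3 * q ∧ 3 * q < 8 * h),
      (q : ℝ) ^ (2 * (m + 2) + 1) * ‖c q‖ ^ (2 * (m + 2)) ≤
      3 ^ (2 * (m + 2) + 1) * 3000 ^ (m + 2) * ∑ p ∈ Finset.Icc (h : ℤ) (3 * h),
        √(∑ n ∈ Finset.Icc (1 : ℤ) B, (n * p : ℝ) * ‖F p n‖ ^ 2) ^ (m + 2) := by
  have hh1 : (1 : ℝ) ≤ h := by exact_mod_cast hh
  set w : ℤ → ℝ := fun p => √(∑ n ∈ Finset.Icc (1 : ℤ) B, (n * p : ℝ) * ‖F p n‖ ^ 2) with hw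
  have hw2 : ∀ p ∈ Finset.Icc (h : ℤ) (3 * h), w p ^ 2 =
      ∑ n ∈ Finset.Icc (1 : ℤ) B, (n * p : ℝ) * ‖F p n‖ ^ 2 := by
    intro p hp
    rw [Finset.mem_Icc] at hp
    refine Real.sq_sqrt (Finset.sum_nonneg fun n hn => ?_)
    rw [Finset.mem_Icc] at hn
    have a1 : (1 : ℝ) ≤ n := by exact_mod_cast hn.1
    have a2 : (1 : ℝ) ≤ p := hh1.trans (by exact_mod_cast hp.1)
    positivity
  set E := ∑ q ∈ (Finset.range (3 * h + 1)).filter (fun q => 4 * h ≤ 3 * q ∧ 3 * q < 8 * h),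
      ‖c q‖ ^ 2 with hE
  have hE0 : 0 ≤ E := Finset.sum_nonneg fun _ _ => by positivity
  have h1 := block1 hF hh
  rw [← hE] at h1
  have h2 : (h : ℝ) ^ 2 * ∑ m ∈ Finset.Icc (h : ℤ) (3 * h), ∑ n ∈ Finset.Icc (h : ℤ) (3 * h),
      ‖F m n‖ ^ 2 ≤ ∑ p ∈ Finset.Icc (h : ℤ) (3 * h), w p ^ 2 := by
    rw [Finset.mul_sum]
    refine Finset.sum_le_sum fun p hp => ?_
    rw [hw2 p hp, Finset.mul_sum]
    rw [Finset.mem_Icc] at hp
    have a2 : (h : ℝ) ≤ p := by exact_mod_cast hp.1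
    refine (Finset.sum_le_sum (f := fun n => (h : ℝ) ^ 2 * ‖F p n‖ ^ 2)
      (g := fun n : ℤ => (n * p : ℝ) * ‖F p n‖ ^ 2) fun n hn => ?_).trans
      (Finset.sum_le_sum_of_subset_of_nonneg ?_ ?_)
    · rw [Finset.mem_Icc] at hn
      have a1 : (h : ℝ) ≤ n := by exact_mod_cast hn.1
      refine mul_le_mul_of_nonneg_right ?_ (by positivity)
      nlinarith
    · intro n hn
      rw [Finset.mem_Icc] at hn ⊢
      constructor <;> omega
    · intro n hn _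
      rw [Finset.mem_Icc] at hn
      have a1 : (1 : ℝ) ≤ n := by exact_mod_cast hn.1
      have a3 : (1 : ℝ) ≤ p := hh1.trans a2
      positivity
  have h3 : (h : ℝ) ^ 5 * E ^ 2 ≤ 10 ^ 6 * ∑ p ∈ Finset.Icc (h : ℤ) (3 * h), w p ^ 2 := by
    have := mul_le_mul_of_nonneg_left h1 (by positivity : (0 : ℝ) ≤ (h : ℝ) ^ 2)
    calc (h : ℝ) ^ 5 * E ^ 2 = (h : ℝ) ^ 2 * ((h : ℝ) ^ 3 * E ^ 2) := by ring
      _ ≤ _ := this
      _ = 10 ^ 6 * ((h : ℝ) ^ 2 * ∑ m ∈ Finset.Icc (h : ℤ) (3 * h),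
          ∑ n ∈ Finset.Icc (h : ℤ) (3 * h), ‖F m n‖ ^ 2) := by ring
      _ ≤ _ := mul_le_mul_of_nonneg_left h2 (by positivity)
  set T := ∑ p ∈ Finset.Icc (h : ℤ) (3 * h), w p ^ (m + 2) with hT
  have hT0 : 0 ≤ T := Finset.sum_nonneg fun _ _ => by positivity
  have h4 := power_mean (Finset.Icc (h : ℤ) (3 * h)) w (fun i _ => Real.sqrt_nonneg _) m
  rw [← hT] at h4
  have h5 : (((Finset.Icc (h : ℤ) (3 * h)).card : ℝ)) ^ m ≤ (3 * (h : ℝ)) ^ m := by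
    refine pow_le_pow_left₀ (by positivity) ?_ m
    have : (Finset.Icc (h : ℤ) (3 * h)).card ≤ 3 * h := by
      rw [Int.card_Icc]; omega
    exact_mod_cast this
  have h6 : ((h : ℝ) ^ 5 * E ^ 2) ^ (m + 2) ≤
      (10 ^ 6) ^ (m + 2) * ((3 * (h : ℝ)) ^ m * T ^ 2) := by
    refine (pow_le_pow_left₀ (by positivity) h3 (m + 2)).trans ?_
    rw [mul_pow]
    refine mul_le_mul_of_nonneg_left (h4.trans ?_) (by positivity)
    exact mul_le_mul_of_nonneg_right h5 (by positivity)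
  have h7 : ((h : ℝ) ^ (2 * (m + 2) + 1) * E ^ (m + 2)) ^ 2 ≤ (3000 ^ (m + 2) * T) ^ 2 := by
    have e1 : (h : ℝ) ^ m * ((h : ℝ) ^ (2 * (m + 2) + 1) * E ^ (m + 2)) ^ 2 =
        ((h : ℝ) ^ 5 * E ^ 2) ^ (m + 2) := by ring
    have e2 : (h : ℝ) ^ m * (3000 ^ (m + 2) * T) ^ 2 =
        3 ^ (m + 4) * ((10 ^ 6) ^ (m + 2) * ((3 * (h : ℝ)) ^ m * T ^ 2)) := by
      have : (3000 : ℝ) ^ (m + 2) = 3 ^ (m + 2) * 1000 ^ (m + 2) := by
        rw [← mul_pow]; norm_num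
      have h10 : (10 ^ 6 : ℝ) = 1000 ^ 2 := by norm_num
      rw [this, h10]
      generalize (1000 : ℝ) = t
      ring
    have e3 : (1 : ℝ) ≤ 3 ^ (m + 4) := one_le_pow₀ (by norm_num)
    refine le_of_mul_le_mul_left (a := (h : ℝ) ^ m) ?_ (by positivity)
    rw [e1, e2]
    refine h6.trans ?_
    exact le_mul_of_one_le_left (by positivity) e3
  have h8 : (h : ℝ) ^ (2 * (m + 2) + 1) * E ^ (m + 2) ≤ 3000 ^ (m + 2) * T :=
    (pow_le_pow_iff_left₀ (by positivity) (by positivity) (by norm_num)).1 h7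
  have h9 : ∑ q ∈ (Finset.range (3 * h + 1)).filter (fun q => 4 * h ≤ 3 * q ∧ 3 * q < 8 * h),
      (‖c q‖ ^ 2) ^ (m + 2) ≤ E ^ (m + 2) := by
    rw [hE]
    exact sum_pow_le _ _ (fun _ _ => by positivity) (m + 1)
  calc ∑ q ∈ (Finset.range (3 * h + 1)).filter (fun q => 4 * h ≤ 3 * q ∧ 3 * q < 8 * h),
      (q : ℝ) ^ (2 * (m + 2) + 1) * ‖c q‖ ^ (2 * (m + 2))
      ≤ ∑ q ∈ (Finset.range (3 * h + 1)).filter (fun q => 4 * h ≤ 3 * q ∧ 3 * q < 8 * h),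
      (3 * (h : ℝ)) ^ (2 * (m + 2) + 1) * (‖c q‖ ^ 2) ^ (m + 2) := by
        refine Finset.sum_le_sum fun q hq => ?_
        rw [Finset.mem_filter, Finset.mem_range] at hq
        have : (q : ℝ) ≤ 3 * h := by
          have : q ≤ 3 * h := by omega
          exact_mod_cast this
        rw [← pow_mul]
        exact mul_le_mul_of_nonneg_right (pow_le_pow_left₀ (by positivity) this _) (by positivity)
    _ ≤ (3 * (h : ℝ)) ^ (2 * (m + 2) + 1) * E ^ (m + 2) := by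
        rw [← Finset.mul_sum]
        exact mul_le_mul_of_nonneg_left h9 (by positivity)
    _ = 3 ^ (2 * (m + 2) + 1) * ((h : ℝ) ^ (2 * (m + 2) + 1) * E ^ (m + 2)) := by
        rw [mul_pow]; ring
    _ ≤ 3 ^ (2 * (m + 2) + 1) * (3000 ^ (m + 2) * T) :=
        mul_le_mul_of_nonneg_left h8 (by positivity)
    _ = _ := by ring

/-- Summation over the dyadic blocks. -/
theorem blocks (hF : ∀ m n, F (m - 1) (n + 1) - 2 * F m n + F (m + 1) (n - 1) = 2 * (c m * c n))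
    (m Q : ℕ) :
    ∑ q ∈ Finset.Icc 2 Q, (q : ℝ) ^ (2 * (m + 2) + 1) * ‖c q‖ ^ (2 * (m + 2)) ≤
      2 * (3 ^ (2 * (m + 2) + 1) * 3000 ^ (m + 2)) * ∑ p ∈ Finset.Icc (1 : ℤ) (3 * Q : ℕ),
        √(∑ n ∈ Finset.Icc (1 : ℤ) (3 * Q : ℕ), (n * p : ℝ) * ‖F p n‖ ^ 2) ^ (m + 2) := by
  set w : ℤ → ℝ := fun p => √(∑ n ∈ Finset.Icc (1 : ℤ) (3 * Q : ℕ), (n * p : ℝ) * ‖F p n‖ ^ 2)
    with hw
  set C : ℝ := 3 ^ (2 * (m + 2) + 1) * 3000 ^ (m + 2) with hC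
  set I : ℕ → Finset ℕ := fun i =>
    (Finset.range (3 * 2 ^ i + 1)).filter (fun q => 4 * 2 ^ i ≤ 3 * q ∧ 3 * q < 8 * 2 ^ i) with hI
  set V : Finset ℕ := (Finset.range (Q + 1)).filter (fun i => 2 ^ i ≤ Q) with hV
  have hcover : Finset.Icc 2 Q ⊆ V.biUnion I := by
    intro q hq
    rw [Finset.mem_Icc] at hq
    rw [Finset.mem_biUnion]
    have hne : 3 * q / 4 ≠ 0 := by omega
    have a1 := Nat.pow_log_le_self 2 hne
    have a2 := Nat.lt_pow_succ_log_self (b := 2) (by norm_num) (3 * q / 4)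
    set i := Nat.log 2 (3 * q / 4)
    rw [pow_succ] at a2
    refine ⟨i, ?_, ?_⟩
    · rw [hV, Finset.mem_filter, Finset.mem_range]
      have a3 : i < 2 ^ i := Nat.lt_two_pow_self
      omega
    · rw [hI, Finset.mem_filter, Finset.mem_range]
      omega
  have s1 : ∑ q ∈ Finset.Icc 2 Q, (q : ℝ) ^ (2 * (m + 2) + 1) * ‖c q‖ ^ (2 * (m + 2)) ≤
      ∑ i ∈ V, ∑ q ∈ I i, (q : ℝ) ^ (2 * (m + 2) + 1) * ‖c q‖ ^ (2 * (m + 2)) := by
    refine (Finset.sum_le_sum_of_subset_of_nonneg hcover fun _ _ _ => by positivity).trans ?_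
    rw [Finset.sum_sigma']
    rw [← Finset.sum_image (s := V.sigma I) (g := fun x => x.2)
      (f := fun q : ℕ => (q : ℝ) ^ (2 * (m + 2) + 1) * ‖c q‖ ^ (2 * (m + 2)))]
    · refine Finset.sum_le_sum_of_subset_of_nonneg ?_ fun _ _ _ => by positivity
      intro q hq
      rw [Finset.mem_biUnion] at hq
      obtain ⟨i, hi, hq⟩ := hq
      exact Finset.mem_image.2 ⟨⟨i, q⟩, Finset.mem_sigma.2 ⟨hi, hq⟩, rfl⟩
    · rintro ⟨i, q⟩ hx ⟨j, r⟩ hy hxy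
      simp only at hxy
      subst hxy
      simp only [Finset.coe_sigma, Set.mem_sigma_iff, Finset.mem_coe, hI, Finset.mem_filter] at hx hy
      have : i = j := by
        by_contra hne
        rcases Nat.lt_or_gt_of_ne hne with hlt | hlt
        · have := Nat.pow_le_pow_right (n := 2) (by norm_num) (Nat.succ_le_of_lt hlt)
          rw [Nat.succ_eq_add_one, pow_succ] at this
          omega
        · have := Nat.pow_le_pow_right (n := 2) (by norm_num) (Nat.succ_le_of_lt hlt)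
          rw [Nat.succ_eq_add_one, pow_succ] at this
          omega
      subst this
      rfl
  have s2 : ∑ i ∈ V, ∑ q ∈ I i, (q : ℝ) ^ (2 * (m + 2) + 1) * ‖c q‖ ^ (2 * (m + 2)) ≤
      ∑ i ∈ V, C * ∑ p ∈ Finset.Icc (((2 ^ i : ℕ)) : ℤ) (3 * (2 ^ i : ℕ)), w p ^ (m + 2) := by
    refine Finset.sum_le_sum fun i hi => ?_
    rw [hV, Finset.mem_filter] at hi
    exact block2 hF m (h := 2 ^ i) (B := 3 * Q) Nat.one_le_two_pow (by omega)
  have s3 : ∑ i ∈ V, ∑ p ∈ Finset.Icc (((2 ^ i : ℕ)) : ℤ) (3 * (2 ^ i : ℕ)), w p ^ (m + 2) ≤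
      2 * ∑ p ∈ Finset.Icc (1 : ℤ) (3 * Q : ℕ), w p ^ (m + 2) := by
    have t1 : ∑ i ∈ V, ∑ p ∈ Finset.Icc (((2 ^ i : ℕ)) : ℤ) (3 * (2 ^ i : ℕ)), w p ^ (m + 2) =
        ∑ i ∈ V, ∑ p ∈ Finset.Icc (1 : ℤ) (3 * Q : ℕ),
          if ((2 ^ i : ℕ) : ℤ) ≤ p ∧ p ≤ 3 * (2 ^ i : ℕ) then w p ^ (m + 2) else 0 := by
      refine Finset.sum_congr rfl fun i hi => ?_
      rw [← Finset.sum_filter]
      refine Finset.sum_congr ?_ fun _ _ => rfl
      ext p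
      rw [Finset.mem_filter, Finset.mem_Icc, Finset.mem_Icc]
      rw [hV, Finset.mem_filter] at hi
      have : 1 ≤ 2 ^ i := Nat.one_le_two_pow
      constructor
      · rintro ⟨h1, h2⟩
        refine ⟨⟨?_, ?_⟩, h1, h2⟩ <;> omega
      · rintro ⟨_, h1, h2⟩
        exact ⟨h1, h2⟩
    rw [t1, Finset.sum_comm, Finset.mul_sum]
    refine Finset.sum_le_sum fun p hp => ?_
    rw [Finset.mem_Icc] at hp
    rw [← Finset.sum_filter, Finset.sum_const, nsmul_eq_mul]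
    refine mul_le_mul_of_nonneg_right ?_ (by positivity)
    have : (V.filter fun i => ((2 ^ i : ℕ) : ℤ) ≤ p ∧ p ≤ 3 * (2 ^ i : ℕ)).card ≤ 2 := by
      have hsub : (V.filter fun i => ((2 ^ i : ℕ) : ℤ) ≤ p ∧ p ≤ 3 * (2 ^ i : ℕ)) ⊆
          {Nat.log 2 p.toNat, Nat.log 2 p.toNat - 1} := by
        intro i hi
        rw [Finset.mem_filter] at hi
        obtain ⟨_, hi1, hi2⟩ := hi
        rw [Finset.mem_insert, Finset.mem_singleton]
        have hp0 : p.toNat ≠ 0 := by omega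
        have b1 : i ≤ Nat.log 2 p.toNat := Nat.le_log_of_pow_le (by norm_num) (by omega)
        have b2 : Nat.log 2 p.toNat < i + 2 := by
          refine Nat.log_lt_of_lt_pow hp0 ?_
          rw [pow_add]
          have : 1 ≤ 2 ^ i := Nat.one_le_two_pow
          omega
        omega
      exact (Finset.card_le_card hsub).trans Finset.card_le_two
    exact_mod_cast this
  refine s1.trans (s2.trans ?_)
  rw [← Finset.mul_sum]
  have hC0 : 0 ≤ C := by positivity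
  calc C * _ ≤ C * (2 * ∑ p ∈ Finset.Icc (1 : ℤ) (3 * Q : ℕ), w p ^ (m + 2)) :=
        mul_le_mul_of_nonneg_left s3 hC0
    _ = _ := by ring

end Pool.Agent.Helper69.SZ
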