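import Mathlib

set_option autoImplicit false
set_option linter.unusedSectionVars false

namespace Pool.Agent.Helper69.SZ

open Finset Polynomial

theorem reflect_mapc (P : ℂ[X]) (N : ℕ) :
    (reflect N P).map (starRingEnd ℂ) = reflect N (P.map (starRingEnd ℂ)) := by
  ext i
  rw [coeff_map, coeff_reflect, coeff_reflect, coeff_map]

theorem reflect_reflect' (P : ℂ[X]) (N : ℕ) : reflect N (reflect N P) = P := by
  ext i
  rw [coeff_reflect, coeff_reflect, revAt_invol]

theorem mapc_mapc (P : ℂ[X]) : (P.map (starRingEnd ℂ)).map (starRingEnd ℂ) = P := by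
  ext i
  simp

/-- The square of an analytic trigonometric polynomial: `‖b‖₂⁴ ≤ ‖b²‖₂²`. -/
theorem energy (P : ℂ[X]) (N : ℕ) (hN : P.natDegree ≤ N) :
    (∑ q ∈ range (N + 1), ‖P.coeff q‖ ^ 2) ^ 2 ≤ ∑ S ∈ range (2 * N + 1), ‖(P * P).coeff S‖ ^ 2 := by
  set Q : ℂ[X] := reflect N (P.map (starRingEnd ℂ)) with hQ
  have hPm : (P.map (starRingEnd ℂ)).natDegree ≤ N := natDegree_map_le.trans hN
  have hQd : Q.natDegree ≤ N := by
    refine (natDegree_le_iff_coeff_eq_zero).2 fun i hi => ?_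
    rw [hQ, coeff_reflect, revAt_eq_self_of_lt hi]
    exact coeff_eq_zero_of_natDegree_lt (lt_of_le_of_lt hPm hi)
  have hQm : Q.map (starRingEnd ℂ) = reflect N P := by
    rw [hQ, reflect_mapc, mapc_mapc]
  have hQmd : (Q.map (starRingEnd ℂ)).natDegree ≤ N := natDegree_map_le.trans hQd
  have h1 : Q * Q = reflect (N + N) ((P * P).map (starRingEnd ℂ)) := by
    rw [Polynomial.map_mul, reflect_mul _ _ hPm hPm]
  have h2 : P * Q = reflect (N + N) ((P * Q).map (starRingEnd ℂ)) := by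
    rw [Polynomial.map_mul, reflect_mul _ _ hPm hQmd, hQm, reflect_reflect', mul_comm]
  have e1 : (P * P * (Q * Q)).coeff (N + N) =
      ∑ S ∈ range (N + N + 1), ((‖(P * P).coeff S‖ ^ 2 : ℝ) : ℂ) := by
    rw [coeff_mul, Finset.Nat.sum_antidiagonal_eq_sum_range_succ_mk]
    refine Finset.sum_congr rfl fun S hS => ?_
    have hS' : S ≤ N + N := by simpa [Nat.lt_succ_iff] using hS
    have : (Q * Q).coeff (N + N - S) = star ((P * P).coeff S) := by
      conv_lhs => rw [h1]
      rw [coeff_reflect, revAt_le (Nat.sub_le _ _), Nat.sub_sub_self hS', coeff_map]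
      rfl
    simp only [this]
    push_cast
    exact Complex.mul_conj' _
  have e2 : (P * Q * (P * Q)).coeff (N + N) =
      ∑ S ∈ range (N + N + 1), ((‖(P * Q).coeff S‖ ^ 2 : ℝ) : ℂ) := by
    rw [coeff_mul, Finset.Nat.sum_antidiagonal_eq_sum_range_succ_mk]
    refine Finset.sum_congr rfl fun S hS => ?_
    have hS' : S ≤ N + N := by simpa [Nat.lt_succ_iff] using hS
    have : (P * Q).coeff (N + N - S) = star ((P * Q).coeff S) := by
      conv_lhs => rw [h2]
      rw [coeff_reflect, revAt_le (Nat.sub_le _ _), Nat.sub_sub_self hS', coeff_map]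
      rfl
    simp only [this]
    push_cast
    exact Complex.mul_conj' _
  have e3 : P * P * (Q * Q) = P * Q * (P * Q) := by ring
  rw [e3, e2] at e1
  have e4 : ∑ S ∈ range (N + N + 1), ‖(P * Q).coeff S‖ ^ 2 =
      ∑ S ∈ range (N + N + 1), ‖(P * P).coeff S‖ ^ 2 := by
    exact_mod_cast e1
  have e5 : (P * Q).coeff N = ((∑ q ∈ range (N + 1), ‖P.coeff q‖ ^ 2 : ℝ) : ℂ) := by
    rw [coeff_mul, Finset.Nat.sum_antidiagonal_eq_sum_range_succ_mk]
    push_cast
    refine Finset.sum_congr rfl fun S hS => ?_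
    have hS' : S ≤ N := by simpa [Nat.lt_succ_iff] using hS
    rw [hQ, coeff_reflect, revAt_le (Nat.sub_le _ _), Nat.sub_sub_self hS', coeff_map]
    exact Complex.mul_conj' _
  have e6 : ‖(P * Q).coeff N‖ ^ 2 ≤ ∑ S ∈ range (N + N + 1), ‖(P * Q).coeff S‖ ^ 2 :=
    Finset.single_le_sum (f := fun S => ‖(P * Q).coeff S‖ ^ 2) (fun _ _ => by positivity)
      (Finset.mem_range.2 (by omega))
  rw [e5, Complex.norm_real, Real.norm_eq_abs, sq_abs, e4] at e6
  rw [two_mul]
  exact e6

end Pool.Agent.Helper69.SZ
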