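import Mathlib

set_option autoImplicit false
set_option linter.unusedSectionVars false

namespace Pool.Agent.Helper69.SZ

open Complex Real MeasureTheory
open scoped ContDiff

/-- Fourier coefficients of a `2π`-periodic real function. -/
noncomputable def coef (a : ℝ → ℝ) (n : ℤ) : ℂ :=
  1 / (2 * π) * ∫ θ in (0 : ℝ)..(2 * π), (a θ : ℂ) * Complex.exp (-(Complex.I * n * θ))

theorem coef_neg (a : ℝ → ℝ) (n : ℤ) : coef a (-n) = star (coef a n) := by
  unfold coef
  rw [star_mul', Complex.star_def, ← intervalIntegral.intervalIntegral_conj]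
  congr 1
  · simp
    exact (map_ofNat _ 2).symm
  · refine intervalIntegral.integral_congr fun θ _ => ?_
    simp only [map_mul, Complex.conj_ofReal]
    rw [← Complex.exp_conj]
    congr 2
    simp

theorem coef_deriv {a : ℝ → ℝ} (ha : ContDiff ℝ ∞ a) (hp : Function.Periodic a (2 * π)) (n : ℤ) :
    coef (deriv a) n = Complex.I * n * coef a n := by
  unfold coef
  have hd := (contDiff_infty_iff_deriv.1 ha).1
  have hd' := (contDiff_infty_iff_deriv.1 ha).2.continuous
  have h1 : ∫ θ in (0 : ℝ)..(2 * π), Complex.exp (-(Complex.I * n * θ)) * ((deriv a θ : ℝ) : ℂ) =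
      Complex.exp (-(Complex.I * n * (2 * π : ℝ))) * (a (2 * π) : ℂ) -
        Complex.exp (-(Complex.I * n * (0 : ℝ))) * (a 0 : ℂ) -
      ∫ θ in (0 : ℝ)..(2 * π), (-(Complex.I * n) * Complex.exp (-(Complex.I * n * θ))) * (a θ : ℂ) := by
    refine intervalIntegral.integral_mul_deriv_eq_deriv_mul
      (u := fun θ : ℝ => Complex.exp (-(Complex.I * n * θ)))
      (v := fun θ : ℝ => (a θ : ℂ))
      (u' := fun θ : ℝ => (-(Complex.I * n) * Complex.exp (-(Complex.I * n * θ))))
      (v' := fun θ : ℝ => ((deriv a θ : ℝ) : ℂ)) ?_ ?_ ?_ ?_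
    · intro θ _
      have h2 : HasDerivAt (fun θ : ℝ => -(Complex.I * n * (θ : ℂ))) (-(Complex.I * n)) θ := by
        have h6 : HasDerivAt (fun θ : ℝ => (θ : ℂ)) 1 θ := Complex.ofRealCLM.hasDerivAt (x := θ)
        have h7 := h6.const_mul (-(Complex.I * n))
        rw [mul_one] at h7
        refine h7.congr_of_eventuallyEq (Filter.Eventually.of_forall fun t => ?_)
        ring
      have := h2.cexp
      rw [mul_comm (Complex.exp _)] at this
      exact this
    · intro θ _
      exact (hd θ).hasDerivAt.ofReal_comp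
    · refine Continuous.intervalIntegrable ?_ _ _
      fun_prop
    · refine Continuous.intervalIntegrable ?_ _ _
      exact Complex.continuous_ofReal.comp hd'
  have h2 : ∫ θ in (0 : ℝ)..(2 * π), ((deriv a θ : ℝ) : ℂ) * Complex.exp (-(Complex.I * n * θ)) =
      ∫ θ in (0 : ℝ)..(2 * π), Complex.exp (-(Complex.I * n * θ)) * ((deriv a θ : ℝ) : ℂ) :=
    intervalIntegral.integral_congr fun θ _ => mul_comm _ _
  have h3 : ∫ θ in (0 : ℝ)..(2 * π),
      (-(Complex.I * n) * Complex.exp (-(Complex.I * n * θ))) * (a θ : ℂ) =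
      -(Complex.I * n) * ∫ θ in (0 : ℝ)..(2 * π), (a θ : ℂ) * Complex.exp (-(Complex.I * n * θ)) := by
    rw [← intervalIntegral.integral_const_mul]
    refine intervalIntegral.integral_congr fun θ _ => ?_
    ring
  have h4 : Complex.exp (-(Complex.I * n * (2 * π : ℝ))) = 1 := by
    rw [Complex.exp_neg, inv_eq_one, Complex.exp_eq_one_iff]
    exact ⟨n, by push_cast; ring⟩
  have h5 : a (2 * π) = a 0 := by simpa using hp 0
  rw [h2, h1, h3, h4, h5]
  simp
  ring

theorem periodic_deriv {a : ℝ → ℝ} {T : ℝ} (hp : Function.Periodic a T) :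
    Function.Periodic (deriv a) T := by
  intro x
  have h1 : (fun y => a (y + T)) = a := funext hp
  rw [← deriv_comp_add_const, h1]

theorem coef_decay (p : ℕ) : ∀ a : ℝ → ℝ, ContDiff ℝ ∞ a → Function.Periodic a (2 * π) →
    ∃ C : ℝ, ∀ n : ℤ, |(n : ℝ)| ^ p * ‖coef a n‖ ≤ C := by
  induction p with
  | zero =>
    intro a ha _
    refine ⟨‖(1 / (2 * π) : ℂ)‖ * ∫ θ in (0 : ℝ)..(2 * π), ‖(a θ : ℂ)‖, fun n => ?_⟩
    rw [pow_zero, one_mul, coef, norm_mul]
    refine mul_le_mul_of_nonneg_left ?_ (norm_nonneg _)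
    refine (intervalIntegral.norm_integral_le_integral_norm (by positivity)).trans (le_of_eq ?_)
    refine intervalIntegral.integral_congr fun θ _ => ?_
    simp only [norm_mul]
    have : ‖Complex.exp (-(Complex.I * n * θ))‖ = 1 := by
      rw [Complex.norm_exp]
      simp
    rw [this, mul_one]
  | succ p ih =>
    intro a ha hp
    obtain ⟨C, hC⟩ := ih (deriv a) (contDiff_infty_iff_deriv.1 ha).2 (periodic_deriv hp)
    refine ⟨C, fun n => ?_⟩
    have := hC n
    rw [coef_deriv ha hp, norm_mul, norm_mul, Complex.norm_I, one_mul, Complex.norm_intCast] at this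
    calc |(n : ℝ)| ^ (p + 1) * ‖coef a n‖ = |(n : ℝ)| ^ p * (|(n : ℝ)| * ‖coef a n‖) := by ring
      _ ≤ C := this

theorem coef_summable {a : ℝ → ℝ} (ha : ContDiff ℝ ∞ a) (hp : Function.Periodic a (2 * π)) (N : ℕ) :
    Summable (fun j : ℤ => (1 + |(j : ℝ)|) ^ N * ‖coef a j‖) := by
  obtain ⟨C, hC⟩ := coef_decay (N + 2) a ha hp
  have h1 : Summable (fun m : ℤ => 2 ^ N * C * (1 / (m : ℝ) ^ 2)) :=
    (Real.summable_one_div_int_pow.2 (by norm_num)).mul_left _
  refine Summable.of_norm_bounded_eventually h1 ?_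
  rw [Filter.eventually_cofinite]
  refine (Set.finite_singleton (0 : ℤ)).subset ?_
  intro m hm
  rw [Set.mem_singleton_iff]
  by_contra h
  apply hm
  have h2 : (1 : ℝ) ≤ |(m : ℝ)| := by
    have : (1 : ℤ) ≤ |m| := Int.one_le_abs h
    exact_mod_cast this
  have h3 : (0 : ℝ) < (m : ℝ) ^ 2 := by
    rw [← sq_abs]; positivity
  rw [Real.norm_of_nonneg (by positivity)]
  rw [mul_one_div, le_div_iff₀ h3]
  have h4 : (1 + |(m : ℝ)|) ^ N ≤ (2 * |(m : ℝ)|) ^ N :=
    pow_le_pow_left₀ (by positivity) (by linarith) N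
  calc (1 + |(m : ℝ)|) ^ N * ‖coef a m‖ * (m : ℝ) ^ 2
      ≤ (2 * |(m : ℝ)|) ^ N * ‖coef a m‖ * (m : ℝ) ^ 2 := by
        refine mul_le_mul_of_nonneg_right (mul_le_mul_of_nonneg_right h4 (norm_nonneg _)) h3.le
    _ = 2 ^ N * (|(m : ℝ)| ^ (N + 2) * ‖coef a m‖) := by
        rw [← sq_abs (m : ℝ)]; ring
    _ ≤ 2 ^ N * C := mul_le_mul_of_nonneg_left (hC m) (by positivity)

end Pool.Agent.Helper69.SZ
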