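import Pool.Agent.Helper69.SZ.Schur

set_option autoImplicit false
set_option linter.unusedSectionVars false

namespace Pool.Agent.Helper69.SZ

open Module LinearMap Finset
open scoped InnerProductSpace

section
variable {E : Type} [NormedAddCommGroup E] [InnerProductSpace ℂ E] [FiniteDimensional ℂ E]
variable {ι κ : Type} [Fintype ι] [Fintype κ]

/-- Powers of an upper triangular operator. -/
theorem tri_pow {n : ℕ} (b : OrthonormalBasis (Fin n) ℂ E) (X : E →ₗ[ℂ] E)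
    (h : ∀ i j, j < i → ⟪b i, X (b j)⟫_ℂ = 0) (m : ℕ) :
    (∀ i j, j < i → ⟪b i, (X ^ m) (b j)⟫_ℂ = 0) ∧
      ∀ i, ⟪b i, (X ^ m) (b i)⟫_ℂ = ⟪b i, X (b i)⟫_ℂ ^ m := by
  have key : ∀ (Y : E →ₗ[ℂ] E) i j, ⟪b i, X (Y (b j))⟫_ℂ =
      ∑ l, ⟪b i, X (b l)⟫_ℂ * ⟪b l, Y (b j)⟫_ℂ := by
    intro Y i j
    conv_lhs => rw [← b.sum_repr' (Y (b j)), map_sum, inner_sum]
    refine Finset.sum_congr rfl fun l _ => ?_
    rw [map_smul, inner_smul_right, mul_comm]
  induction m with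
  | zero =>
    constructor
    · intro i j hij
      simp only [pow_zero, Module.End.one_apply]
      rw [b.inner_eq_zero hij.ne']
    · intro i
      simp
  | succ m ih =>
    constructor
    · intro i j hij
      rw [pow_succ', Module.End.mul_apply, key]
      refine Finset.sum_eq_zero fun l _ => ?_
      rcases lt_or_ge l i with hl | hl
      · rw [h i l hl, zero_mul]
      · rw [ih.1 l j (lt_of_lt_of_le hij hl), mul_zero]
    · intro i
      rw [pow_succ', Module.End.mul_apply, key, Finset.sum_eq_single i]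
      · rw [ih.2 i, pow_succ']
      · intro l _ hl
        rcases lt_or_gt_of_ne hl with hl | hl
        · rw [h i l hl, zero_mul]
        · rw [ih.1 l i hl, mul_zero]
      · simp

theorem scalar_klein (m : ℕ) (s t : ℝ) (hs : 0 ≤ s) (ht : 0 ≤ t) :
    t ^ (m + 2) + (m + 2) * t ^ (m + 1) * (s - t) + (s - t) ^ 2 * (s ^ m + t ^ m) / 2
      ≤ s ^ (m + 2) := by
  induction m with
  | zero => simp; nlinarith
  | succ m ih =>
    have e1 := mul_le_mul_of_nonneg_left ih hs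
    have e2 : 0 ≤ t ^ (m + 1) * (s - t) ^ 2 := by positivity
    have e3 : 0 ≤ s * t ^ m * (s - t) ^ 2 := by positivity
    have e4 : 0 ≤ (m : ℝ) * (t ^ (m + 1) * (s - t) ^ 2) := by positivity
    push_cast
    have : s ^ (m + 1 + 2) - (t ^ (m + 1 + 2) + (m + 1 + 2) * t ^ (m + 1 + 1) * (s - t) +
        (s - t) ^ 2 * (s ^ (m + 1) + t ^ (m + 1)) / 2) =
        (s * s ^ (m + 2) - s * (t ^ (m + 2) + (m + 2) * t ^ (m + 1) * (s - t) +
          (s - t) ^ 2 * (s ^ m + t ^ m) / 2)) + s * t ^ m * (s - t) ^ 2 / 2 +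
          (m + 3 / 2) * (t ^ (m + 1) * (s - t) ^ 2) := by ring
    nlinarith

theorem parseval (b : OrthonormalBasis ι ℂ E) (v : E) : ∑ i, ‖⟪b i, v⟫_ℂ‖ ^ 2 = ‖v‖ ^ 2 :=
  b.sum_sq_norm_inner_right v

theorem jensen_pow (w : ι → ℝ) (x : ι → ℝ) (hw : ∀ i, 0 ≤ w i) (hw1 : ∑ i, w i = 1)
    (hx : ∀ i, 0 ≤ x i) (m : ℕ) : (∑ i, w i * x i) ^ m ≤ ∑ i, w i * x i ^ m :=
  Real.pow_arith_mean_le_arith_mean_pow _ _ _ (fun i _ => hw i) hw1 (fun i _ => hx i) m

theorem abs_pow_le (a b : ℝ) (ha : 0 ≤ a) (hb : 0 ≤ b) (m : ℕ) : |a - b| ^ m ≤ a ^ m + b ^ m := by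
  rcases le_total a b with h | h
  · rw [abs_of_nonpos (by linarith)]
    have : (-(a - b)) ^ m ≤ b ^ m := pow_le_pow_left₀ (by linarith) (by linarith) m
    have := pow_nonneg ha m
    linarith
  · rw [abs_of_nonneg (by linarith)]
    have : (a - b) ^ m ≤ a ^ m := pow_le_pow_left₀ (by linarith) (by linarith) m
    have := pow_nonneg hb m
    linarith

/-- The diagonal operator in an orthonormal basis. -/
noncomputable def dg (w : OrthonormalBasis ι ℂ E) (t : ι → ℝ) : E →ₗ[ℂ] E :=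
  ∑ i, (t i : ℂ) • (innerₛₗ ℂ (w i)).smulRight (w i)

theorem dg_apply (w : OrthonormalBasis ι ℂ E) (t : ι → ℝ) (v : E) :
    dg w t v = ∑ i, (t i : ℂ) • ⟪w i, v⟫_ℂ • w i := by
  simp [dg, LinearMap.sum_apply]

theorem inner_dg (w : OrthonormalBasis ι ℂ E) (t : ι → ℝ) (v : E) (i : ι) :
    ⟪w i, dg w t v⟫_ℂ = t i * ⟪w i, v⟫_ℂ := by
  classical
  rw [dg_apply, inner_sum, Finset.sum_eq_single i]
  · rw [inner_smul_right, inner_smul_right, inner_self_eq_norm_sq_to_K, w.norm_eq_one]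
    simp
  · intro j _ hj
    rw [inner_smul_right, inner_smul_right, w.inner_eq_zero hj.symm]
    simp
  · simp

theorem dg_symm (w : OrthonormalBasis ι ℂ E) (t : ι → ℝ) : (dg w t).IsSymmetric := by
  intro x y
  rw [← w.sum_inner_mul_inner, ← w.sum_inner_mul_inner x]
  refine Finset.sum_congr rfl fun i _ => ?_
  rw [inner_dg, ← inner_conj_symm, inner_dg, ← inner_conj_symm x (w i)]
  simp
  ring

theorem eig_pow {G : E →ₗ[ℂ] E} {u : E} {g : ℝ} (h : G u = (g : ℂ) • u) (m : ℕ) :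
    (G ^ m) u = ((g ^ m : ℝ) : ℂ) • u := by
  induction m with
  | zero => simp
  | succ m ih =>
    rw [pow_succ', Module.End.mul_apply, ih, map_smul, h, smul_smul, pow_succ]
    push_cast
    rfl

theorem strong_klein {n : ℕ} (u w ζ : OrthonormalBasis (Fin n) ℂ E) (g t z : Fin n → ℝ)
    (G : E →ₗ[ℂ] E) (hG : G.IsSymmetric) (hu : ∀ j, G (u j) = (g j : ℂ) • u j)
    (hζ : ∀ l, (G - dg w t) (ζ l) = (z l : ℂ) • ζ l) (hg : ∀ j, 0 ≤ g j) (ht0 : ∀ i, 0 ≤ t i)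
    (ht : ∀ i, t i ≤ (⟪w i, G (w i)⟫_ℂ).re) (m : ℕ) :
    (∑ l, |z l| ^ (m + 2)) / 2 ≤ ∑ j, g j ^ (m + 2) - ∑ i, t i ^ (m + 2) := by
  set Z : E →ₗ[ℂ] E := G - dg w t with hZ
  have hZs : Z.IsSymmetric := hG.sub (dg_symm w t)
  set P : Fin n → Fin n → ℝ := fun i j => ‖⟪w i, u j⟫_ℂ‖ ^ 2 with hP
  have P0 : ∀ i j, 0 ≤ P i j := fun i j => by positivity
  have Pc : ∀ j, ∑ i, P i j = 1 := fun j => by
    simp only [hP]; rw [parseval w, u.norm_eq_one]; norm_num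
  have Pr : ∀ i, ∑ j, P i j = 1 := fun i => by
    have : ∀ j, P i j = ‖⟪u j, w i⟫_ℂ‖ ^ 2 := fun j => by
      simp only [hP]; rw [norm_inner_symm]
    simp only [this]; rw [parseval u, w.norm_eq_one]; norm_num
  -- expectation of an operator which is diagonal in a basis
  have ex : ∀ (b : OrthonormalBasis (Fin n) ℂ E) (c : Fin n → ℝ) (A : E →ₗ[ℂ] E),
      (∀ j, A (b j) = (c j : ℂ) • b j) → ∀ v : E,
      (⟪v, A v⟫_ℂ).re = ∑ j, c j * ‖⟪b j, v⟫_ℂ‖ ^ 2 := by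
    intro b c A hA v
    have : ⟪v, A v⟫_ℂ = ∑ j, ((c j * ‖⟪b j, v⟫_ℂ‖ ^ 2 : ℝ) : ℂ) := by
      conv_lhs => rw [← b.sum_repr' v, map_sum, inner_sum]
      refine Finset.sum_congr rfl fun j _ => ?_
      rw [map_smul, hA, inner_smul_right, inner_smul_right, b.sum_repr', ← inner_conj_symm v (b j)]
      push_cast
      rw [← Complex.mul_conj']
      ring
    rw [this, Complex.re_sum]
    simp only [Complex.ofReal_re]
  have hdg : ∀ i, dg w t (w i) = (t i : ℂ) • w i := by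
    intro i
    rw [dg_apply, Finset.sum_eq_single i]
    · rw [inner_self_eq_norm_sq_to_K, w.norm_eq_one]; simp
    · intro j _ hj
      rw [w.inner_eq_zero hj]; simp
    · simp
  -- entries of Z in the mixed bases
  have hZe : ∀ i j, ⟪w i, Z (u j)⟫_ℂ = ((g j - t i : ℝ) : ℂ) * ⟪w i, u j⟫_ℂ := by
    intro i j
    rw [hZ, LinearMap.sub_apply, inner_sub_right, hu, inner_smul_right, inner_dg]
    push_cast
    ring
  have hZu : ∀ j, ∑ i, P i j * (g j - t i) ^ 2 = ‖Z (u j)‖ ^ 2 := by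
    intro j
    rw [← parseval w]
    refine Finset.sum_congr rfl fun i _ => ?_
    rw [hZe, norm_mul, mul_pow, Complex.norm_real, Real.norm_eq_abs, sq_abs, mul_comm]
  have hZw : ∀ i, ∑ j, P i j * (g j - t i) ^ 2 = ‖Z (w i)‖ ^ 2 := by
    intro i
    rw [← parseval u]
    refine Finset.sum_congr rfl fun j _ => ?_
    rw [← norm_inner_symm (Z (w i)), hZs, hZe, norm_mul, mul_pow, Complex.norm_real,
      Real.norm_eq_abs, sq_abs, mul_comm]
  -- norms of Z b in terms of its eigenbasis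
  have hZn : ∀ v : E, ‖Z v‖ ^ 2 = ∑ l, z l ^ 2 * ‖⟪ζ l, v⟫_ℂ‖ ^ 2 := by
    intro v
    rw [← parseval ζ]
    refine Finset.sum_congr rfl fun l _ => ?_
    rw [← hZs, hζ, inner_smul_left, norm_mul, mul_pow, RCLike.norm_conj, Complex.norm_real,
      Real.norm_eq_abs, sq_abs]
  have sym : ∀ (b : OrthonormalBasis (Fin n) ℂ E) l j, ‖⟪ζ l, b j⟫_ℂ‖ ^ 2 = ‖⟪b j, ζ l⟫_ℂ‖ ^ 2 :=
    fun b l j => by rw [norm_inner_symm]
  have key : ∀ (b : OrthonormalBasis (Fin n) ℂ E) (c : Fin n → ℝ), (∀ j, 0 ≤ c j) →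
      ∑ l, z l ^ 2 * (∑ j, c j * ‖⟪b j, ζ l⟫_ℂ‖ ^ 2) ^ m ≤ ∑ j, c j ^ m * ‖Z (b j)‖ ^ 2 := by
    intro b c hc
    have e : ∑ j, c j ^ m * ‖Z (b j)‖ ^ 2 =
        ∑ l, z l ^ 2 * ∑ j, ‖⟪b j, ζ l⟫_ℂ‖ ^ 2 * c j ^ m := by
      simp only [hZn, Finset.mul_sum]
      rw [Finset.sum_comm]
      refine Finset.sum_congr rfl fun l _ => Finset.sum_congr rfl fun j _ => ?_
      rw [sym]; ring
    rw [e]
    refine Finset.sum_le_sum fun l _ => mul_le_mul_of_nonneg_left ?_ (sq_nonneg _)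
    have := jensen_pow (fun j => ‖⟪b j, ζ l⟫_ℂ‖ ^ 2) c (fun j => by positivity)
      (by rw [parseval b, ζ.norm_eq_one]; norm_num) hc m
    simpa only [mul_comm] using this
  have k1 := key u g hg
  have k2 := key w t ht0
  have k3 : ∑ l, |z l| ^ (m + 2) ≤ ∑ l, z l ^ 2 * (∑ j, g j * ‖⟪u j, ζ l⟫_ℂ‖ ^ 2) ^ m +
      ∑ l, z l ^ 2 * (∑ j, t j * ‖⟪w j, ζ l⟫_ℂ‖ ^ 2) ^ m := by
    rw [← Finset.sum_add_distrib]
    refine Finset.sum_le_sum fun l _ => ?_
    have e1 := ex u g G hu (ζ l)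
    have e2 := ex w t (dg w t) hdg (ζ l)
    have e3 : (⟪ζ l, G (ζ l)⟫_ℂ).re - (⟪ζ l, dg w t (ζ l)⟫_ℂ).re = z l := by
      rw [← Complex.sub_re, ← inner_sub_right, ← LinearMap.sub_apply, hζ, inner_smul_right,
        inner_self_eq_norm_sq_to_K, ζ.norm_eq_one]
      simp
    rw [e1, e2] at e3
    have := abs_pow_le (∑ j, g j * ‖⟪u j, ζ l⟫_ℂ‖ ^ 2) (∑ j, t j * ‖⟪w j, ζ l⟫_ℂ‖ ^ 2)
      (Finset.sum_nonneg fun j _ => mul_nonneg (hg j) (by positivity))
      (Finset.sum_nonneg fun j _ => mul_nonneg (ht0 j) (by positivity)) m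
    rw [e3] at this
    rw [pow_add, sq_abs, mul_comm]
    nlinarith [mul_le_mul_of_nonneg_left this (sq_nonneg (z l))]
  have k4 : ∑ i, ∑ j, P i j * (t i ^ (m + 2) + (m + 2) * t i ^ (m + 1) * (g j - t i) +
      (g j - t i) ^ 2 * (g j ^ m + t i ^ m) / 2) ≤ ∑ i, ∑ j, P i j * g j ^ (m + 2) :=
    Finset.sum_le_sum fun i _ => Finset.sum_le_sum fun j _ =>
      mul_le_mul_of_nonneg_left (scalar_klein m (g j) (t i) (hg j) (ht0 i)) (P0 i j)
  have r1 : ∑ i, ∑ j, P i j * g j ^ (m + 2) = ∑ j, g j ^ (m + 2) := by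
    rw [Finset.sum_comm]
    refine Finset.sum_congr rfl fun j _ => ?_
    rw [← Finset.sum_mul, Pc, one_mul]
  have r2 : ∑ i, ∑ j, P i j * (t i ^ (m + 2) + (m + 2) * t i ^ (m + 1) * (g j - t i) +
      (g j - t i) ^ 2 * (g j ^ m + t i ^ m) / 2) = ∑ i, t i ^ (m + 2) +
      ∑ i, (m + 2) * t i ^ (m + 1) * ((⟪w i, G (w i)⟫_ℂ).re - t i) +
      (∑ j, g j ^ m * ‖Z (u j)‖ ^ 2 + ∑ i, t i ^ m * ‖Z (w i)‖ ^ 2) / 2 := by
    have a1 : ∑ j, g j ^ m * ‖Z (u j)‖ ^ 2 = ∑ i, ∑ j, P i j * ((g j - t i) ^ 2 * g j ^ m) := by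
      rw [Finset.sum_comm]
      refine Finset.sum_congr rfl fun j _ => ?_
      rw [← hZu, Finset.mul_sum]
      exact Finset.sum_congr rfl fun i _ => by ring
    have a2 : ∑ i, t i ^ m * ‖Z (w i)‖ ^ 2 = ∑ i, ∑ j, P i j * ((g j - t i) ^ 2 * t i ^ m) := by
      refine Finset.sum_congr rfl fun i _ => ?_
      rw [← hZw, Finset.mul_sum]
      exact Finset.sum_congr rfl fun j _ => by ring
    have a3 : ∀ i, (⟪w i, G (w i)⟫_ℂ).re - t i = ∑ j, P i j * (g j - t i) := by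
      intro i
      rw [ex u g G hu (w i)]
      simp only [mul_sub, Finset.sum_sub_distrib]
      rw [← Finset.sum_mul, Pr, one_mul]
      congr 1
      refine Finset.sum_congr rfl fun j _ => ?_
      simp only [hP]
      rw [norm_inner_symm, mul_comm]
    rw [a1, a2]
    simp only [a3, Finset.mul_sum]
    rw [← Finset.sum_add_distrib, ← Finset.sum_add_distrib, Finset.sum_div,
      ← Finset.sum_add_distrib]
    refine Finset.sum_congr rfl fun i _ => ?_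
    have a4 : t i ^ (m + 2) = ∑ j, P i j * t i ^ (m + 2) := by
      rw [← Finset.sum_mul, Pr, one_mul]
    rw [a4, ← Finset.sum_add_distrib, ← Finset.sum_add_distrib, Finset.sum_div,
      ← Finset.sum_add_distrib]
    refine Finset.sum_congr rfl fun j _ => ?_
    rw [← a4]
    ring
  have r3 : 0 ≤ ∑ i, (m + 2) * t i ^ (m + 1) * ((⟪w i, G (w i)⟫_ℂ).re - t i) := by
    refine Finset.sum_nonneg fun i _ => mul_nonneg ?_ (sub_nonneg.2 (ht i))
    have := pow_nonneg (ht0 i) (m + 1)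
    positivity
  rw [r1, r2] at k4
  linarith

end

end Pool.Agent.Helper69.SZ
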