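import Pool.Agent.Helper69.SZ.Section
import Pool.Agent.Helper69.SZ.Block2

set_option autoImplicit false
set_option linter.unusedSectionVars false

namespace Pool.Agent.Helper69.SZ

open Finset Filter Topology

/-- Splitting off the first coordinate. -/
def consE (n : ℕ) : ℤ × (Fin n → ℤ) ≃ (Fin (n + 1) → ℤ) where
  toFun y := Fin.cons y.1 y.2
  invFun x := (x 0, fun i => x i.succ)
  left_inv y := by simp
  right_inv x := by
    funext i
    refine Fin.cases ?_ (fun i => ?_) i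
    · simp
    · simp

theorem pi_summable {b : ℤ → ℝ} (hb : ∀ j, 0 ≤ b j) (hs : Summable b) (n : ℕ) :
    Summable (fun x : Fin n → ℤ => ∏ i, b (x i)) := by
  induction n with
  | zero => exact (hasSum_fintype _).summable
  | succ n ih =>
    have hp : ∀ x : Fin n → ℤ, 0 ≤ ∏ i, b (x i) := fun x => Finset.prod_nonneg fun i _ => hb (x i)
    have h1 : Summable (fun y : ℤ × (Fin n → ℤ) => b y.1 * ∏ i, b (y.2 i)) :=
      Summable.mul_of_nonneg (f := b) (g := fun x : Fin n → ℤ => ∏ i, b (x i)) hs ih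
        (fun j => hb j) (fun x => hp x)
    refine (consE n).summable_iff.1 ?_
    refine h1.congr fun y => ?_
    simp [consE, Fin.prod_univ_succ]

theorem abs_sub_zero_le {n : ℕ} (x : Fin (n + 1) → ℤ) (i : Fin (n + 1)) :
    |x i - x 0| ≤ ∑ l : Fin (n + 1), |x (finRotate (n + 1) l) - x l| := by
  have key : ∀ i : Fin (n + 1), |x i - x 0| ≤
      ∑ l ∈ Finset.Iio i, |x (finRotate (n + 1) l) - x l| := by
    intro i
    induction i using Fin.induction with
    | zero =>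
      rw [sub_self, abs_zero]
      exact Finset.sum_nonneg fun _ _ => abs_nonneg _
    | succ i ih =>
      have h1 : Finset.Iio i.succ = insert i.castSucc (Finset.Iio i.castSucc) := by
        ext l
        simp only [Finset.mem_Iio, Finset.mem_insert, Fin.lt_def, Fin.ext_iff, Fin.val_succ,
          Fin.val_castSucc]
        omega
      rw [h1, Finset.sum_insert (by simp)]
      have h2 : finRotate (n + 1) i.castSucc = i.succ := by
        rw [finRotate_apply]; simp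
      rw [h2]
      calc |x i.succ - x 0| = |(x i.succ - x i.castSucc) + (x i.castSucc - x 0)| := by ring_nf
        _ ≤ |x i.succ - x i.castSucc| + |x i.castSucc - x 0| := abs_add_le _ _
        _ ≤ _ := by linarith
  refine (key i).trans ?_
  exact Finset.sum_le_sum_of_subset_of_nonneg (Finset.subset_univ _) fun _ _ _ => abs_nonneg _

theorem sign_change {n : ℕ} (hn : Even (n + 1)) (x : Fin (n + 1) → ℤ)
    (hx : ∏ i, |x i| - ∏ i, x i ≠ 0) :
    (∃ a, x a < 0) ∧ (∃ b, 0 < x b) := by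
  have h0 : ∏ i, x i < 0 := by
    rw [← Finset.abs_prod] at hx
    by_contra h
    exact hx (by rw [abs_of_nonneg (not_lt.1 h), sub_self])
  constructor
  · by_contra h
    push Not at h
    exact absurd (Finset.prod_nonneg fun i _ => h i) (not_le.2 h0)
  · by_contra h
    push Not at h
    have h1 : ∏ i, x i = ∏ i, (-x i) := by
      have h2 : ∀ i ∈ (Finset.univ : Finset (Fin (n + 1))), -x i = (-1) * x i := fun i _ => by ring
      rw [Finset.prod_congr rfl h2, Finset.prod_mul_distrib, Finset.prod_const, Finset.card_univ,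
        Fintype.card_fin, hn.neg_one_pow, one_mul]
    rw [h1] at h0
    exact absurd (Finset.prod_nonneg fun i _ => neg_nonneg.2 (h i)) (not_le.2 h0)

theorem abs_le_of_change {n : ℕ} (hn : Even (n + 1)) (x : Fin (n + 1) → ℤ)
    (hx : ∏ i, |x i| - ∏ i, x i ≠ 0) (i : Fin (n + 1)) :
    |x i| ≤ 2 * ∑ l : Fin (n + 1), |x (finRotate (n + 1) l) - x l| := by
  obtain ⟨⟨a, ha⟩, b, hb⟩ := sign_change hn x hx
  have h1 := abs_sub_zero_le x i
  have h2 := abs_sub_zero_le x a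
  have h3 := abs_sub_zero_le x b
  set S := ∑ l : Fin (n + 1), |x (finRotate (n + 1) l) - x l|
  rw [abs_le] at *
  constructor <;> omega

theorem one_add_sum_le {ι : Type*} (s : Finset ι) (f : ι → ℝ) (hf : ∀ i, 0 ≤ f i) :
    1 + ∑ i ∈ s, f i ≤ ∏ i ∈ s, (1 + f i) := by
  classical
  induction s using Finset.induction_on with
  | empty => simp
  | insert a s ha ih =>
    rw [Finset.sum_insert ha, Finset.prod_insert ha]
    have h1 : 0 ≤ ∑ i ∈ s, f i := Finset.sum_nonneg fun i _ => hf i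
    have h2 := hf a
    nlinarith [mul_nonneg h2 h1]

variable {c : ℤ → ℂ}

theorem Phi_bound {n : ℕ} (hn : Even (n + 1)) (x : Fin (n + 1) → ℤ) :
    ‖Phi c x‖ ≤ 2 ^ (n + 4) * ((1 + (x 0 : ℝ) ^ 2)⁻¹ *
      ∏ l, ((1 + |((x (finRotate (n + 1) l) - x l : ℤ) : ℝ)|) ^ (n + 3) *
        ‖c (x (finRotate (n + 1) l) - x l)‖)) := by
  by_cases hx : ∏ i, |x i| - ∏ i, x i = 0
  · rw [Phi, hx]
    simp only [Int.cast_zero, zero_mul, norm_zero]
    exact mul_nonneg (by positivity) (mul_nonneg (by positivity)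
      (Finset.prod_nonneg fun _ _ => by positivity))
  · have hb := abs_le_of_change hn x hx
    set J : Fin (n + 1) → ℤ := fun l => x (finRotate (n + 1) l) - x l with hJ
    set P : ℝ := ∏ l, (1 + |(J l : ℝ)|) with hP
    have hP1 : 1 + ∑ l, |(J l : ℝ)| ≤ P := one_add_sum_le _ _ fun _ => abs_nonneg _
    have hS0 : 0 ≤ ∑ l, |(J l : ℝ)| := Finset.sum_nonneg fun _ _ => abs_nonneg _
    have hP0 : 1 ≤ P := by linarith
    have hb' : ∀ i, |(x i : ℝ)| ≤ 2 * ∑ l, |(J l : ℝ)| := by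
      intro i
      have := hb i
      have h2 : ((|x i| : ℤ) : ℝ) ≤ ((2 * ∑ l : Fin (n + 1), |J l| : ℤ) : ℝ) := by
        exact_mod_cast this
      push_cast at h2
      exact h2
    have hb2 : ∀ i, |(x i : ℝ)| ≤ 2 * P := fun i => (hb' i).trans (by linarith)
    rw [Phi, norm_mul, norm_prod]
    have h1 : ‖((∏ i, |x i| - ∏ i, x i : ℤ) : ℂ)‖ ≤ 2 * (2 * P) ^ (n + 1) := by
      rw [Complex.norm_intCast]
      push_cast
      have h3 : ∏ i, |(x i : ℝ)| ≤ (2 * P) ^ (n + 1) := by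
        calc ∏ i, |(x i : ℝ)| ≤ ∏ _i : Fin (n + 1), (2 * P) :=
              Finset.prod_le_prod (fun _ _ => abs_nonneg _) fun i _ => hb2 i
          _ = _ := by rw [Finset.prod_const, Finset.card_univ, Fintype.card_fin]
      have h4 : |∏ i, (x i : ℝ)| = ∏ i, |(x i : ℝ)| := Finset.abs_prod _ _
      have h5 := abs_sub (∏ i, |(x i : ℝ)|) (∏ i, (x i : ℝ))
      rw [h4, abs_of_nonneg (Finset.prod_nonneg fun i _ => abs_nonneg (x i : ℝ))] at h5
      linarith
    have h2 : (1 + (x 0 : ℝ) ^ 2) ≤ (2 * P) ^ 2 := by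
      have h3 := hb' 0
      have h4 : (x 0 : ℝ) ^ 2 ≤ (2 * ∑ l, |(J l : ℝ)|) ^ 2 := by
        rw [← sq_abs]; exact pow_le_pow_left₀ (abs_nonneg _) h3 2
      nlinarith
    rw [Finset.prod_mul_distrib, Finset.prod_pow, ← hP]
    have h0 : (0 : ℝ) < 1 + (x 0 : ℝ) ^ 2 := by positivity
    have h6 : 0 ≤ ∏ l, ‖c (J l)‖ := Finset.prod_nonneg fun _ _ => norm_nonneg _
    calc ‖((∏ i, |x i| - ∏ i, x i : ℤ) : ℂ)‖ * ∏ l, ‖c (J l)‖
        ≤ (2 * (2 * P) ^ (n + 1)) * ∏ l, ‖c (J l)‖ := mul_le_mul_of_nonneg_right h1 h6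
      _ = (1 + (x 0 : ℝ) ^ 2) * ((1 + (x 0 : ℝ) ^ 2)⁻¹ * ((2 * (2 * P) ^ (n + 1)) *
          ∏ l, ‖c (J l)‖)) := by rw [mul_inv_cancel_left₀ h0.ne']
      _ ≤ (2 * P) ^ 2 * ((1 + (x 0 : ℝ) ^ 2)⁻¹ * ((2 * (2 * P) ^ (n + 1)) *
          ∏ l, ‖c (J l)‖)) := mul_le_mul_of_nonneg_right h2 (by positivity)
      _ = _ := by ring

theorem diff_inj (n : ℕ) : Function.Injective (fun x : Fin (n + 1) → ℤ =>
    ((x 0, fun l : Fin n => x (finRotate (n + 1) l.castSucc) - x l.castSucc) :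
      ℤ × (Fin n → ℤ))) := by
  intro x y hxy
  simp only [Prod.mk.injEq] at hxy
  obtain ⟨h0, h1⟩ := hxy
  funext i
  induction i using Fin.induction with
  | zero => exact h0
  | succ i ih =>
    have h2 := congrFun h1 i
    have h3 : finRotate (n + 1) i.castSucc = i.succ := by
      rw [finRotate_apply]; simp
    simp only [h3] at h2
    omega

theorem Phi_summable (hs : ∀ N : ℕ, Summable (fun j : ℤ => (1 + |(j : ℝ)|) ^ N * ‖c j‖))
    {n : ℕ} (hn : Even (n + 1)) : Summable (fun x : Fin (n + 1) → ℤ => Phi c x) := by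
  set b : ℤ → ℝ := fun j => (1 + |(j : ℝ)|) ^ (n + 3) * ‖c j‖ with hb
  have hb0 : ∀ j, 0 ≤ b j := fun j => by positivity
  have hbs : Summable b := hs (n + 3)
  have hinv : Summable (fun m : ℤ => (1 + (m : ℝ) ^ 2)⁻¹) := by
    have h1 : Summable (fun m : ℤ => 1 / (m : ℝ) ^ 2) :=
      Real.summable_one_div_int_pow.2 (by norm_num)
    refine Summable.of_norm_bounded_eventually h1 ?_
    rw [Filter.eventually_cofinite]
    refine (Set.finite_singleton (0 : ℤ)).subset ?_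
    intro m hm
    rw [Set.mem_singleton_iff]
    by_contra h
    apply hm
    have : (0 : ℝ) < (m : ℝ) ^ 2 := by
      have : (m : ℝ) ≠ 0 := by exact_mod_cast h
      positivity
    rw [Real.norm_of_nonneg (by positivity), one_div]
    exact inv_anti₀ this (by linarith)
  obtain ⟨M, hM⟩ : ∃ M, ∀ j, b j ≤ M := ⟨∑' j, b j, fun j => hbs.le_tsum j fun i _ => hb0 i⟩
  have hM0 : 0 ≤ M := (hb0 0).trans (hM 0)
  have hg : Summable (fun y : ℤ × (Fin n → ℤ) =>
      2 ^ (n + 4) * M * ((1 + (y.1 : ℝ) ^ 2)⁻¹ * ∏ l, b (y.2 l))) :=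
    (hinv.mul_of_nonneg (pi_summable hb0 hbs n) (fun m => by positivity)
      (fun x => Finset.prod_nonneg fun i _ => hb0 _)).mul_left _
  refine Summable.of_norm_bounded (hg.comp_injective (diff_inj n)) fun x => ?_
  refine (Phi_bound hn x).trans ?_
  simp only [Function.comp]
  rw [Fin.prod_univ_castSucc, mul_assoc (2 ^ (n + 4))]
  refine mul_le_mul_of_nonneg_left ?_ (by positivity)
  have h1 : 0 ≤ ∏ l : Fin n, b (x (finRotate (n + 1) l.castSucc) - x l.castSucc) :=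
    Finset.prod_nonneg fun i _ => hb0 _
  have h2 : b (x (finRotate (n + 1) (Fin.last n)) - x (Fin.last n)) ≤ M := hM _
  calc (1 + (x 0 : ℝ) ^ 2)⁻¹ *
      ((∏ l : Fin n, b (x (finRotate (n + 1) l.castSucc) - x l.castSucc)) *
        b (x (finRotate (n + 1) (Fin.last n)) - x (Fin.last n)))
      ≤ (1 + (x 0 : ℝ) ^ 2)⁻¹ *
      ((∏ l : Fin n, b (x (finRotate (n + 1) l.castSucc) - x l.castSucc)) * M) := by
        refine mul_le_mul_of_nonneg_left ?_ (by positivity)
        exact mul_le_mul_of_nonneg_left h2 h1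
    _ = _ := by ring

/-- The box sums converge to the full sum. -/
theorem box_tendsto {n : ℕ} {f : (Fin n → ℤ) → ℂ} (hf : Summable f) :
    Tendsto (fun L : ℕ => ∑ x ∈ Fintype.piFinset fun _ : Fin n => Finset.Icc (-(L : ℤ)) L, f x)
      atTop (𝓝 (∑' x, f x)) := by
  refine hf.hasSum.comp ?_
  refine tendsto_atTop_finset_of_monotone ?_ ?_
  · intro L M hLM x hx
    rw [Fintype.mem_piFinset] at hx ⊢
    intro i
    have := hx i
    rw [Finset.mem_Icc] at this ⊢
    constructor <;> omega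
  · intro x
    refine ⟨∑ i, (x i).natAbs, ?_⟩
    rw [Fintype.mem_piFinset]
    intro i
    have : (x i).natAbs ≤ ∑ i, (x i).natAbs :=
      Finset.single_le_sum (f := fun i => (x i).natAbs) (fun _ _ => Nat.zero_le _)
        (Finset.mem_univ i)
    rw [Finset.mem_Icc]
    constructor <;> omega

theorem icc_tendsto {f : ℤ → ℂ} (hf : Summable f) :
    Tendsto (fun L : ℕ => ∑ x ∈ Finset.Icc (-(L : ℤ)) L, f x) atTop (𝓝 (∑' x, f x)) := by
  refine hf.hasSum.comp ?_
  refine tendsto_atTop_finset_of_monotone ?_ ?_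
  · intro L M hLM x hx
    rw [Finset.mem_Icc] at hx ⊢
    constructor <;> omega
  · intro x
    refine ⟨x.natAbs, ?_⟩
    rw [Finset.mem_Icc]
    constructor <;> omega

/-- The off-diagonal kernel. -/
noncomputable def FF (c : ℤ → ℂ) (p n : ℤ) : ℂ := ∑' z : ℤ, ((|z| : ℤ) : ℂ) * c (p - z) * c (z + n)

theorem FF_summable (hs : ∀ N : ℕ, Summable (fun j : ℤ => (1 + |(j : ℝ)|) ^ N * ‖c j‖)) (p n : ℤ) :
    Summable (fun z : ℤ => ((|z| : ℤ) : ℂ) * c (p - z) * c (z + n)) := by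
  have h0 : Summable (fun j : ℤ => ‖c j‖) := by simpa using hs 0
  have h1 := hs 1
  obtain ⟨M, hM⟩ : ∃ M, ∀ j, ‖c j‖ ≤ M := ⟨∑' j, ‖c j‖, fun j => h0.le_tsum j fun i _ => norm_nonneg _⟩
  have hM0 : 0 ≤ M := (norm_nonneg _).trans (hM 0)
  have h2 : Summable (fun z : ℤ => (1 + |(p : ℝ)|) * M *
      ((1 + |((p - z : ℤ) : ℝ)|) ^ 1 * ‖c (p - z)‖)) :=
    ((Equiv.subLeft p).summable_iff.2 h1).mul_left _
  refine Summable.of_norm_bounded h2 fun z => ?_
  rw [norm_mul, norm_mul, Complex.norm_intCast]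
  push_cast
  rw [abs_abs, pow_one]
  have h3 : |(z : ℝ)| ≤ (1 + |(p : ℝ)|) * (1 + |(p : ℝ) - z|) := by
    have h4 : |(z : ℝ)| ≤ |(p : ℝ)| + |(p : ℝ) - z| := by
      have := abs_sub (p : ℝ) (p - z)
      rwa [sub_sub_cancel] at this
    nlinarith [mul_nonneg (abs_nonneg (p : ℝ)) (abs_nonneg ((p : ℝ) - z))]
  calc |(z : ℝ)| * ‖c (p - z)‖ * ‖c (z + n)‖
      ≤ ((1 + |(p : ℝ)|) * (1 + |(p : ℝ) - z|)) * ‖c (p - z)‖ * M := by
        refine mul_le_mul (mul_le_mul_of_nonneg_right h3 (norm_nonneg _)) (hM _) (norm_nonneg _) ?_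
        positivity
    _ = _ := by ring

theorem FF_diff (hs : ∀ N : ℕ, Summable (fun j : ℤ => (1 + |(j : ℝ)|) ^ N * ‖c j‖)) (m n : ℤ) :
    FF c (m - 1) (n + 1) - 2 * FF c m n + FF c (m + 1) (n - 1) = 2 * (c m * c n) := by
  have e1 : FF c (m - 1) (n + 1) = ∑' z : ℤ, ((|z - 1| : ℤ) : ℂ) * c (m - z) * c (z + n) := by
    unfold FF
    rw [← (Equiv.subRight (1 : ℤ)).tsum_eq]
    refine tsum_congr fun z => ?_
    simp only [Equiv.subRight_apply]
    rw [show m - 1 - (z - 1) = m - z by ring, show z - 1 + (n + 1) = z + n by ring]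
  have e2 : FF c (m + 1) (n - 1) = ∑' z : ℤ, ((|z + 1| : ℤ) : ℂ) * c (m - z) * c (z + n) := by
    unfold FF
    rw [← (Equiv.addRight (1 : ℤ)).tsum_eq]
    refine tsum_congr fun z => ?_
    simp only [Equiv.coe_addRight]
    rw [show m + 1 - (z + 1) = m - z by ring, show z + 1 + (n - 1) = z + n by ring]
  have s1 : Summable (fun z : ℤ => ((|z - 1| : ℤ) : ℂ) * c (m - z) * c (z + n)) := by
    have := (Equiv.subRight (1 : ℤ)).summable_iff.2 (FF_summable hs (m - 1) (n + 1))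
    refine this.congr fun z => ?_
    simp only [Function.comp, Equiv.subRight_apply]
    rw [show m - 1 - (z - 1) = m - z by ring, show z - 1 + (n + 1) = z + n by ring]
  have s2 : Summable (fun z : ℤ => ((|z + 1| : ℤ) : ℂ) * c (m - z) * c (z + n)) := by
    have := (Equiv.addRight (1 : ℤ)).summable_iff.2 (FF_summable hs (m + 1) (n - 1))
    refine this.congr fun z => ?_
    simp only [Function.comp, Equiv.coe_addRight]
    rw [show m + 1 - (z + 1) = m - z by ring, show z + 1 + (n - 1) = z + n by ring]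
  have s0 := FF_summable hs m n
  rw [e1, e2, FF, ← tsum_mul_left, ← s1.tsum_sub (s0.mul_left 2),
    ← (s1.sub (s0.mul_left 2)).tsum_add s2]
  rw [tsum_eq_single (0 : ℤ)]
  · simp
    ring
  · intro z hz
    have h3 : |z - 1| - 2 * |z| + |z + 1| = 0 := by
      rcases lt_or_gt_of_ne hz with h | h
      · rw [abs_of_neg (by omega), abs_of_neg h, abs_of_nonpos (by omega)]; ring
      · rw [abs_of_nonneg (by omega), abs_of_pos h, abs_of_pos (by omega)]; ring
    have h4 : ((|z - 1| - 2 * |z| + |z + 1| : ℤ) : ℂ) = 0 := by rw [h3]; simp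
    push_cast at h4
    linear_combination (c (m - z) * c (z + n)) * h4

theorem final_ineq (hc : ∀ n, c (-n) = star (c n))
    (hs : ∀ N : ℕ, Summable (fun j : ℤ => (1 + |(j : ℝ)|) ^ N * ‖c j‖)) (m Q : ℕ) :
    ∑ q ∈ Finset.Icc 2 Q, (q : ℝ) ^ (2 * (m + 2) + 1) * ‖c q‖ ^ (2 * (m + 2)) ≤
      4 * (3 ^ (2 * (m + 2) + 1) * 3000 ^ (m + 2)) *
        (∑' x : Fin (2 * m + 3 + 1) → ℤ, Phi c x).re := by
  have hsum : Summable (fun x : Fin (2 * m + 3 + 1) → ℤ => Phi c x) :=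
    Phi_summable hs (by
      rw [show 2 * m + 3 + 1 = 2 * (m + 2) by ring]; exact even_two_mul _)
  have h1 : Tendsto (fun L : ℕ => ∑ p ∈ Finset.Icc (1 : ℤ) (3 * Q : ℕ),
      √(∑ n ∈ Finset.Icc (1 : ℤ) (3 * Q : ℕ), (n * p : ℝ) * ‖FL c L p n‖ ^ 2) ^ (m + 2)) atTop
      (𝓝 (∑ p ∈ Finset.Icc (1 : ℤ) (3 * Q : ℕ),
      √(∑ n ∈ Finset.Icc (1 : ℤ) (3 * Q : ℕ), (n * p : ℝ) * ‖FF c p n‖ ^ 2) ^ (m + 2))) := by
    refine tendsto_finsetSum _ fun p _ => ?_
    refine Tendsto.pow ?_ _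
    refine (Real.continuous_sqrt.tendsto _).comp ?_
    refine tendsto_finsetSum _ fun n _ => ?_
    refine Tendsto.const_mul _ (Tendsto.pow (Tendsto.norm ?_) 2)
    exact icc_tendsto (FF_summable hs p n)
  have h2 := ((Complex.continuous_re.tendsto _).comp (box_tendsto hsum)).const_mul 2
  have h3 : ∑ p ∈ Finset.Icc (1 : ℤ) (3 * Q : ℕ),
      √(∑ n ∈ Finset.Icc (1 : ℤ) (3 * Q : ℕ), (n * p : ℝ) * ‖FF c p n‖ ^ 2) ^ (m + 2) ≤
      2 * (∑' x : Fin (2 * m + 3 + 1) → ℤ, Phi c x).re := by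
    refine le_of_tendsto_of_tendsto h1 h2 ?_
    filter_upwards [eventually_ge_atTop (3 * Q)] with L hL
    exact section_ineq hc m L (3 * Q) hL
  refine (blocks (FF_diff hs) m Q).trans ?_
  calc 2 * (3 ^ (2 * (m + 2) + 1) * 3000 ^ (m + 2)) * _
      ≤ 2 * (3 ^ (2 * (m + 2) + 1) * 3000 ^ (m + 2)) *
        (2 * (∑' x : Fin (2 * m + 3 + 1) → ℤ, Phi c x).re) :=
        mul_le_mul_of_nonneg_left h3 (by positivity)
    _ = _ := by ring

end Pool.Agent.Helper69.SZ
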