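import Pool.Agent.Helper69.SZ.Limit

set_option autoImplicit false
set_option linter.unusedSectionVars false

namespace Pool.Agent.Helper69.SZ

open Finset Filter Topology

/-- `f(n) = n (n + j₁) ⋯ (n + j₁ + ⋯ + j_{d-1})`. -/
def fP {d : ℕ} (j : Fin d → ℤ) (n : ℤ) : ℤ :=
  ∏ i : Fin d, (n + ∑ l ∈ Finset.univ.filter (fun l => l < i), j l)

/-- `N_j`. -/
noncomputable def NN {d : ℕ} (j : Fin d → ℤ) : ℤ := ∑ᶠ n : ℤ, (|fP j n| - fP j n)

theorem filter_succ {n : ℕ} (i : Fin n) :
    (Finset.univ.filter (fun l : Fin (n + 1) => l < i.succ)) =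
      insert i.castSucc (Finset.univ.filter (fun l : Fin (n + 1) => l < i.castSucc)) := by
  ext l
  simp only [Finset.mem_filter, Finset.mem_univ, true_and, Finset.mem_insert, Fin.lt_def,
    Fin.ext_iff, Fin.val_succ, Fin.val_castSucc]
  omega

theorem rot_castSucc {n : ℕ} (i : Fin n) : finRotate (n + 1) i.castSucc = i.succ := by
  rw [finRotate_apply]; simp

theorem telescope {n : ℕ} (x : Fin (n + 1) → ℤ) (i : Fin (n + 1)) :
    x 0 + ∑ l ∈ Finset.univ.filter (fun l => l < i), (x (finRotate (n + 1) l) - x l) = x i := by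
  induction i using Fin.induction with
  | zero => simp
  | succ i ih =>
    rw [filter_succ, Finset.sum_insert (by simp), rot_castSucc]
    linarith

/-- Closed walks: base point and steps. -/
def walkE (n : ℕ) : {j : Fin (n + 1) → ℤ // ∑ i, j i = 0} × ℤ ≃ (Fin (n + 1) → ℤ) where
  toFun y := fun i => y.2 + ∑ l ∈ Finset.univ.filter (fun l => l < i), y.1.1 l
  invFun x := (⟨fun i => x (finRotate (n + 1) i) - x i, by
    rw [Finset.sum_sub_distrib, Equiv.sum_comp (finRotate (n + 1)) x, sub_self]⟩, x 0)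
  left_inv := by
    rintro ⟨⟨j, hj⟩, m⟩
    refine Prod.ext (Subtype.ext ?_) ?_
    · funext i
      simp only
      refine Fin.lastCases ?_ (fun i => ?_) i
      · have h1 : finRotate (n + 1) (Fin.last n) = 0 := by rw [finRotate_apply]; simp
        rw [h1]
        have h2 : (Finset.univ.filter (fun l : Fin (n + 1) => l < Fin.last n)) =
            Finset.univ.erase (Fin.last n) := by
          ext l
          simp [Fin.lt_last_iff_ne_last]
        have h3 : ∑ l ∈ Finset.univ.erase (Fin.last n), j l + j (Fin.last n) = 0 := by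
          rw [Finset.sum_erase_add _ _ (Finset.mem_univ _), hj]
        rw [h2]
        simp
        linarith
      · rw [rot_castSucc, filter_succ, Finset.sum_insert (by simp)]
        ring
    · simp
  right_inv := by
    intro x
    funext i
    exact telescope x i

variable {c : ℤ → ℂ}

theorem walkE_diff {n : ℕ} (j : {j : Fin (n + 1) → ℤ // ∑ i, j i = 0}) (m : ℤ) (i : Fin (n + 1)) :
    walkE n (j, m) (finRotate (n + 1) i) - walkE n (j, m) i = j.1 i := by
  have := (walkE n).left_inv (j, m)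
  have h2 := congrArg (fun y => y.1.1 i) this
  exact h2

theorem walkE_prod {n : ℕ} (j : {j : Fin (n + 1) → ℤ // ∑ i, j i = 0}) (m : ℤ) :
    ∏ i, walkE n (j, m) i = fP j.1 m := rfl

theorem Phi_walkE {n : ℕ} (j : {j : Fin (n + 1) → ℤ // ∑ i, j i = 0}) (m : ℤ) :
    Phi c (walkE n (j, m)) = ((|fP j.1 m| - fP j.1 m : ℤ) : ℂ) * ∏ i, c (j.1 i) := by
  unfold Phi
  rw [← Finset.abs_prod, walkE_prod]
  simp only [walkE_diff]

theorem fin_supp {n : ℕ} (hn : Even (n + 1)) (j : {j : Fin (n + 1) → ℤ // ∑ i, j i = 0}) :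
    (Function.support (fun m : ℤ => |fP j.1 m| - fP j.1 m)).Finite := by
  refine (Set.finite_Icc (-(2 * ∑ l, |j.1 l|)) (2 * ∑ l, |j.1 l|)).subset fun m hm => ?_
  rw [Function.mem_support, ← walkE_prod, Finset.abs_prod] at hm
  have := abs_le_of_change hn (walkE n (j, m)) hm 0
  simp only [walkE_diff] at this
  have h0 : walkE n (j, m) 0 = m := by simp [walkE]
  rw [h0] at this
  exact abs_le.1 this

theorem inner_sum {n : ℕ} (hn : Even (n + 1)) (j : {j : Fin (n + 1) → ℤ // ∑ i, j i = 0}) :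
    ∑' m : ℤ, Phi c (walkE n (j, m)) = (NN j.1 : ℂ) * ∏ i, c (j.1 i) := by
  simp only [Phi_walkE]
  rw [tsum_mul_right]
  congr 1
  have h1 := fin_supp hn j
  have h2 : (Function.support (fun m : ℤ => ((|fP j.1 m| - fP j.1 m : ℤ) : ℂ))).Finite := by
    refine h1.subset fun m hm => ?_
    rw [Function.mem_support] at hm ⊢
    intro h
    exact hm (by rw [h]; simp)
  rw [tsum_eq_finsum h2, NN]
  exact ((Int.castAddHom ℂ).map_finsum h1).symm

theorem walk_summable (hs : ∀ N : ℕ, Summable (fun j : ℤ => (1 + |(j : ℝ)|) ^ N * ‖c j‖))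
    {n : ℕ} (hn : Even (n + 1)) :
    Summable (fun y : {j : Fin (n + 1) → ℤ // ∑ i, j i = 0} × ℤ => Phi c (walkE n y)) := by
  have h := (walkE n).summable_iff (f := fun x : Fin (n + 1) → ℤ => Phi c x)
  exact h.2 (Phi_summable hs hn)

theorem Z_eq (hs : ∀ N : ℕ, Summable (fun j : ℤ => (1 + |(j : ℝ)|) ^ N * ‖c j‖))
    {n : ℕ} (hn : Even (n + 1)) :
    Summable (fun j : {j : Fin (n + 1) → ℤ // ∑ i, j i = 0} => (NN j.1 : ℂ) * ∏ i, c (j.1 i)) ∧
    ∑' j : {j : Fin (n + 1) → ℤ // ∑ i, j i = 0}, (NN j.1 : ℂ) * ∏ i, c (j.1 i) =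
      ∑' x : Fin (n + 1) → ℤ, Phi c x := by
  have h1 := walk_summable hs hn
  have h2 := h1.prod
  simp only [inner_sum hn] at h2
  refine ⟨h2, ?_⟩
  rw [← (walkE n).tsum_eq (fun x => Phi c x), h1.tsum_prod]
  exact tsum_congr fun j => (inner_sum hn j).symm

theorem Phi_neg (hc : ∀ n, c (-n) = star (c n)) {n : ℕ} (hn : Even (n + 1)) (x : Fin (n + 1) → ℤ) :
    Phi c (-x) = star (Phi c x) := by
  unfold Phi
  have h1 : ∏ i, (-x) i = ∏ i, x i := by
    have h2 : ∀ i ∈ (Finset.univ : Finset (Fin (n + 1))), (-x) i = (-1) * x i := fun i _ => by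
      simp
    rw [Finset.prod_congr rfl h2, Finset.prod_mul_distrib, Finset.prod_const, Finset.card_univ,
      Fintype.card_fin, hn.neg_one_pow, one_mul]
  have h3 : ∏ i, |(-x) i| = ∏ i, |x i| := Finset.prod_congr rfl fun i _ => by simp
  rw [h1, h3, star_mul', star_prod]
  congr 1
  · simp
  · refine Finset.prod_congr rfl fun i _ => ?_
    rw [← hc]
    congr 1
    simp
    ring

theorem tsum_Phi_im (hc : ∀ n, c (-n) = star (c n)) {n : ℕ} (hn : Even (n + 1)) :
    (∑' x : Fin (n + 1) → ℤ, Phi c x).im = 0 := by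
  have h1 : star (∑' x : Fin (n + 1) → ℤ, Phi c x) = ∑' x : Fin (n + 1) → ℤ, Phi c x := by
    rw [← (Equiv.neg (Fin (n + 1) → ℤ)).tsum_eq (fun x => Phi c x), tsum_star]
    have h2 : ∀ x : Fin (n + 1) → ℤ, Phi c (Equiv.neg (Fin (n + 1) → ℤ) x) = star (Phi c x) :=
      fun x => Phi_neg hc hn x
    simp only [h2, star_star]
    rw [← (Equiv.neg (Fin (n + 1) → ℤ)).tsum_eq (fun x => Phi c x)]
    exact tsum_congr fun x => h2 x
  exact Complex.conj_eq_iff_im.1 h1

end Pool.Agent.Helper69.SZ
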