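import Mathlib

set_option autoImplicit false

namespace Pool.Agent.Helper69.SZ

open Module LinearMap
open scoped InnerProductSpace

/-- Schur triangularisation: every operator is upper triangular in some orthonormal basis. -/
theorem exists_schur (n : ℕ) : ∀ (E : Type) [NormedAddCommGroup E] [InnerProductSpace ℂ E]
    [FiniteDimensional ℂ E], finrank ℂ E = n → ∀ X : E →ₗ[ℂ] E,
    ∃ b : OrthonormalBasis (Fin n) ℂ E, ∀ i j, j < i → ⟪b i, X (b j)⟫_ℂ = 0 := by
  induction n with
  | zero =>
    intro E _ _ _ hn X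
    refine ⟨(stdOrthonormalBasis ℂ E).reindex (finCongr hn), fun i => i.elim0⟩
  | succ n ih =>
    intro E _ _ _ hn X
    have : Nontrivial E := Module.nontrivial_of_finrank_pos (R := ℂ) (by omega)
    obtain ⟨μ, hμ⟩ := Module.End.exists_eigenvalue (X.adjoint)
    obtain ⟨v0, hv0⟩ := hμ.exists_hasEigenvector
    have hv0n : v0 ≠ 0 := hv0.2
    have hv0e : X.adjoint v0 = μ • v0 := Module.End.mem_eigenspace_iff.1 hv0.1
    set v : E := ((‖v0‖ : ℂ)⁻¹) • v0 with hv
    have hvn : ‖v‖ = 1 := by
      rw [hv, norm_smul, norm_inv]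
      simp [hv0n]
    have hve : X.adjoint v = μ • v := by
      rw [hv, map_smul, hv0e, smul_comm]
    set W : Submodule ℂ E := (ℂ ∙ v)ᗮ with hW
    have hmem : ∀ w : E, w ∈ W ↔ ⟪v, w⟫_ℂ = 0 := fun w =>
      Submodule.mem_orthogonal_singleton_iff_inner_right
    have hfr : finrank ℂ W = n := by
      have : Fact (finrank ℂ E = n + 1) := ⟨hn⟩
      exact Submodule.finrank_orthogonal_span_singleton (fun h => by rw [h] at hvn; simp at hvn)
    have hinv : ∀ w ∈ W, X w ∈ W := by
      intro w hw
      rw [hmem] at hw ⊢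
      rw [← LinearMap.adjoint_inner_left, hve, inner_smul_left, hw, mul_zero]
    obtain ⟨b, hb⟩ := ih W hfr (X.restrict hinv)
    let f : Fin (n + 1) → E := Fin.snoc (fun i => (b i : E)) v
    have hfc : ∀ i : Fin n, f i.castSucc = b i := fun i => Fin.snoc_castSucc (α := fun _ => E) _ _ i
    have hfl : f (Fin.last n) = v := Fin.snoc_last (α := fun _ => E) _ _
    have hbv : ∀ i, ⟪v, (b i : E)⟫_ℂ = 0 := fun i => (hmem _).1 (b i).2
    have hf : Orthonormal ℂ f := by
      rw [orthonormal_iff_ite]
      intro i j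
      refine Fin.lastCases ?_ (fun i => ?_) i <;> refine Fin.lastCases ?_ (fun j => ?_) j
      · rw [hfl, inner_self_eq_norm_sq_to_K, hvn]; simp
      · rw [hfl, hfc, hbv, if_neg (Fin.castSucc_lt_last j).ne']
      · rw [hfl, hfc, ← inner_conj_symm, hbv, if_neg (Fin.castSucc_lt_last i).ne]; simp
      · rw [hfc, hfc]
        have := (orthonormal_iff_ite.1 b.orthonormal) i j
        rw [← Submodule.coe_inner, this]
        simp [Fin.castSucc_inj]
    have hcard : Fintype.card (Fin (n + 1)) = finrank ℂ E := by simp [hn]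
    refine ⟨(basisOfOrthonormalOfCardEqFinrank hf hcard).toOrthonormalBasis (by
      rw [coe_basisOfOrthonormalOfCardEqFinrank]; exact hf), fun i j hij => ?_⟩
    simp only [Module.Basis.coe_toOrthonormalBasis, coe_basisOfOrthonormalOfCardEqFinrank]
    revert hij
    refine Fin.lastCases ?_ (fun j => ?_) j
    · intro h
      exact absurd h (not_lt.2 (Fin.le_last i))
    · refine Fin.lastCases ?_ (fun i => ?_) i
      · intro _
        rw [hfl, hfc]
        exact (hmem _).1 (hinv _ (b j).2)
      · intro h
        rw [hfc, hfc]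
        have := hb i j (by simpa using h)
        rw [Submodule.coe_inner] at this
        simpa using this

end Pool.Agent.Helper69.SZ
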