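import Pool.Agent.Helper69.SZ.Trace

set_option autoImplicit false
set_option linter.unusedSectionVars false

namespace Pool.Agent.Helper69.SZ

open Finset Matrix

/-- The term of the series of `Z_k` for a closed walk `x`. -/
noncomputable def Phi (c : ℤ → ℂ) {n : ℕ} (x : Fin (n + 1) → ℤ) : ℂ :=
  ((∏ i, |x i| - ∏ i, x i : ℤ) : ℂ) * ∏ i, c (x (finRotate (n + 1) i) - x i)

noncomputable def sg (x : ℤ) : ℂ := if x < 0 then -1 else 1

theorem sg_mul_self (x : ℤ) : sg x * sg x = 1 := by unfold sg; split_ifs <;> norm_num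

theorem sg_conj (x : ℤ) : star (sg x) = sg x := by unfold sg; split_ifs <;> simp

theorem abs_mul_sg (x : ℤ) : ((|x| : ℤ) : ℂ) * sg x = x := by
  unfold sg
  split_ifs with h
  · rw [abs_of_neg h]; push_cast; ring
  · rw [abs_of_nonneg (not_lt.1 h)]; ring

abbrev Ix (L : ℕ) : Type := ↥(Finset.Icc (-(L : ℤ)) L)

noncomputable def sq (x : ℤ) : ℂ := ((√(|x| : ℤ) : ℝ) : ℂ)

theorem sq_mul_self (x : ℤ) : sq x * sq x = ((|x| : ℤ) : ℂ) := by
  unfold sq
  rw [← Complex.ofReal_mul, Real.mul_self_sqrt (by positivity)]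
  exact Complex.ofReal_intCast _

theorem sq_conj (x : ℤ) : star (sq x) = sq x := by
  unfold sq; simp

noncomputable def TT (c : ℤ → ℂ) (L : ℕ) : Matrix (Ix L) (Ix L) ℂ :=
  Matrix.of fun x y => sq x * sq y * c (y - x)

noncomputable def MM (c : ℤ → ℂ) (L : ℕ) : Matrix (Ix L) (Ix L) ℂ :=
  Matrix.of fun x y => sq x * sq y * c (y - x) * sg y

variable {c : ℤ → ℂ}

theorem entry1 (hc : ∀ n, c (-n) = star (c n)) (L : ℕ) (x z : Ix L) :
    (MM c L * (MM c L)ᴴ) x z =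
      sq x * sq z * ∑ y : Ix L, ((|(y : ℤ)| : ℤ) : ℂ) * c (y - x) * c (z - y) := by
  rw [Matrix.mul_apply, Finset.mul_sum]
  refine Finset.sum_congr rfl fun y _ => ?_
  rw [Matrix.conjTranspose_apply]
  simp only [MM, Matrix.of_apply, star_mul', sg_conj, sq_conj]
  rw [← hc, neg_sub, ← sq_mul_self]
  linear_combination (sq x * sq z * (sq y * sq y) * c (y - x) * c (z - y)) * sg_mul_self y

theorem entry2 (hc : ∀ n, c (-n) = star (c n)) (L : ℕ) (x z : Ix L) :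
    ((MM c L)ᴴ * MM c L) x z = sg x * sg z *
      (sq x * sq z * ∑ y : Ix L, ((|(y : ℤ)| : ℤ) : ℂ) * c (y - x) * c (z - y)) := by
  rw [Matrix.mul_apply, Finset.mul_sum, Finset.mul_sum]
  refine Finset.sum_congr rfl fun y _ => ?_
  rw [Matrix.conjTranspose_apply]
  simp only [MM, Matrix.of_apply, star_mul', sg_conj, sq_conj]
  rw [← hc, neg_sub, ← sq_mul_self]
  ring

theorem TT_sq (hc : ∀ n, c (-n) = star (c n)) (L : ℕ) : MM c L * (MM c L)ᴴ = TT c L * TT c L := by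
  ext x z
  rw [entry1 hc, Matrix.mul_apply, Finset.mul_sum]
  refine Finset.sum_congr rfl fun y _ => ?_
  simp only [TT, Matrix.of_apply]
  rw [← sq_mul_self]
  ring

theorem sum_box {n : ℕ} (L : ℕ) (f : (Fin n → ℤ) → ℂ) :
    ∑ y : Fin n → Ix L, f (fun i => (y i : ℤ)) =
      ∑ x ∈ Fintype.piFinset fun _ : Fin n => Finset.Icc (-(L : ℤ)) L, f x := by
  refine Finset.sum_bij' (fun y _ => fun i => (y i : ℤ))
    (fun x hx => fun i => ⟨x i, (Fintype.mem_piFinset.1 hx) i⟩) ?_ ?_ ?_ ?_ ?_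
  · intro y _
    exact Fintype.mem_piFinset.2 fun i => (y i).2
  · intro x _
    exact Finset.mem_univ _
  · intro y _
    rfl
  · intro x _
    rfl
  · intro y _
    rfl

theorem trace_diff (L n : ℕ) :
    Matrix.trace (TT c L ^ (n + 1)) - Matrix.trace (MM c L ^ (n + 1)) =
      ∑ x ∈ Fintype.piFinset fun _ : Fin (n + 1) => Finset.Icc (-(L : ℤ)) L, Phi c x := by
  rw [trace_pow_sum, trace_pow_sum, ← Finset.sum_sub_distrib, ← sum_box]
  refine Finset.sum_congr rfl fun y _ => ?_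
  simp only [TT, MM, Matrix.of_apply, Phi, Finset.prod_mul_distrib]
  rw [Equiv.prod_comp (finRotate (n + 1)) fun i => sq (y i),
    Equiv.prod_comp (finRotate (n + 1)) fun i => sg (y i)]
  have e1 : (∏ i, sq (y i)) * ∏ i, sq (y i) = ((∏ i, |(y i : ℤ)| : ℤ) : ℂ) := by
    rw [← Finset.prod_mul_distrib, Int.cast_prod]
    exact Finset.prod_congr rfl fun i _ => sq_mul_self _
  have e2 : ((∏ i, |(y i : ℤ)| : ℤ) : ℂ) * ∏ i, sg (y i) = ((∏ i, (y i : ℤ) : ℤ) : ℂ) := by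
    rw [Int.cast_prod, Int.cast_prod, ← Finset.prod_mul_distrib]
    exact Finset.prod_congr rfl fun i _ => abs_mul_sg _
  rw [Int.cast_sub]
  linear_combination (1 - ∏ i, sg (y i)) * (∏ i, c (y (finRotate (n + 1) i) - y i)) * e1 -
    (∏ i, c (y (finRotate (n + 1) i) - y i)) * e2

/-- The truncated off-diagonal kernel. -/
noncomputable def FL (c : ℤ → ℂ) (L : ℕ) (p n : ℤ) : ℂ :=
  ∑ z ∈ Finset.Icc (-(L : ℤ)) L, ((|z| : ℤ) : ℂ) * c (p - z) * c (z + n)

theorem section_ineq (hc : ∀ n, c (-n) = star (c n)) (m L B : ℕ) (hB : B ≤ L) :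
    ∑ p ∈ Finset.Icc (1 : ℤ) B, √(∑ n ∈ Finset.Icc (1 : ℤ) B, (n * p : ℝ) * ‖FL c L p n‖ ^ 2) ^ (m + 2)
      ≤ 2 * (∑ x ∈ Fintype.piFinset fun _ : Fin (2 * m + 3 + 1) => Finset.Icc (-(L : ℤ)) L,
        Phi c x).re := by
  have h := matrix_ineq' (MM c L) m
  rw [← trace_diff, Complex.sub_re]
  have e1 : (MM c L * (MM c L)ᴴ) ^ (m + 2) = TT c L ^ (2 * m + 3 + 1) := by
    rw [TT_sq hc, ← pow_two, ← pow_mul]
    congr 1
  have e2 : 2 * (m + 2) = 2 * m + 3 + 1 := by ring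
  rw [e1, e2] at h
  have key : 2 ^ (m + 2) * ∑ p ∈ Finset.Icc (1 : ℤ) B,
      √(∑ n ∈ Finset.Icc (1 : ℤ) B, (n * p : ℝ) * ‖FL c L p n‖ ^ 2) ^ (m + 2) ≤
      ∑ x, √(∑ y, ‖(MM c L * (MM c L)ᴴ - (MM c L)ᴴ * MM c L) y x‖ ^ 2) ^ (m + 2) := by
    rw [Finset.mul_sum]
    -- the columns with positive index
    have hin : ∀ p ∈ Finset.Icc (1 : ℤ) B, p ∈ Finset.Icc (-(L : ℤ)) L := by
      intro p hp
      rw [Finset.mem_Icc] at hp ⊢
      constructor <;> omega
    have hin' : ∀ p ∈ Finset.Icc (1 : ℤ) B, -p ∈ Finset.Icc (-(L : ℤ)) L := by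
      intro p hp
      rw [Finset.mem_Icc] at hp ⊢
      constructor <;> omega
    have hcol : ∀ x : Ix L, (x : ℤ) ∈ Finset.Icc (1 : ℤ) B →
        2 ^ (m + 2) * √(∑ n ∈ Finset.Icc (1 : ℤ) B, (n * (x : ℤ) : ℝ) * ‖FL c L x n‖ ^ 2) ^ (m + 2) ≤
        √(∑ y, ‖(MM c L * (MM c L)ᴴ - (MM c L)ᴴ * MM c L) y x‖ ^ 2) ^ (m + 2) := by
      intro x hx
      rw [← mul_pow]
      refine pow_le_pow_left₀ (by positivity) ?_ _
      have e4 : (2 : ℝ) = √4 := by
        rw [show (4 : ℝ) = 2 ^ 2 by norm_num, Real.sqrt_sq (by norm_num)]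
      rw [e4, ← Real.sqrt_mul (by norm_num)]
      refine Real.sqrt_le_sqrt ?_
      rw [Finset.mul_sum]
      have hx1 : (1 : ℤ) ≤ x := (Finset.mem_Icc.1 hx).1
      calc ∑ n ∈ Finset.Icc (1 : ℤ) B, 4 * ((n * (x : ℤ) : ℝ) * ‖FL c L x n‖ ^ 2)
          = ∑ n ∈ (Finset.Icc (1 : ℤ) B).attach,
            4 * (((n : ℤ) * (x : ℤ) : ℝ) * ‖FL c L x n‖ ^ 2) :=
            (Finset.sum_attach _ fun n : ℤ => 4 * ((n * (x : ℤ) : ℝ) * ‖FL c L x n‖ ^ 2)).symm
        _ = ∑ n ∈ (Finset.Icc (1 : ℤ) B).attach,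
            ‖(MM c L * (MM c L)ᴴ - (MM c L)ᴴ * MM c L) ⟨-n, hin' n n.2⟩ x‖ ^ 2 := by
            refine Finset.sum_congr rfl fun n _ => ?_
            have hn1 : (1 : ℤ) ≤ n := (Finset.mem_Icc.1 n.2).1
            rw [Matrix.sub_apply, entry1 hc, entry2 hc]
            have s1 : sg (-(n : ℤ)) = -1 := by unfold sg; rw [if_pos (by omega)]
            have s2 : sg (x : ℤ) = 1 := by unfold sg; rw [if_neg (by omega)]
            have s3 : ∑ y : Ix L, ((|(y : ℤ)| : ℤ) : ℂ) * c (y - -(n : ℤ)) * c (x - y) =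
                FL c L x n := by
              rw [FL, ← Finset.sum_coe_sort (Finset.Icc (-(L : ℤ)) L)
                (fun z => ((|z| : ℤ) : ℂ) * c (x - z) * c (z + n))]
              refine Finset.sum_congr rfl fun y _ => ?_
              rw [sub_neg_eq_add]; ring
            simp only [s1, s2]
            rw [s3]
            have s4 : sq (-(n : ℤ)) * sq (x : ℤ) * FL c L x n -
                -1 * 1 * (sq (-(n : ℤ)) * sq (x : ℤ) * FL c L x n) =
                2 * sq (-(n : ℤ)) * sq (x : ℤ) * FL c L x n := by ring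
            rw [s4]
            have s5 : ∀ y : ℤ, 1 ≤ y → ‖sq y‖ ^ 2 = y := by
              intro y hy
              rw [sq, Complex.norm_real, Real.norm_eq_abs, sq_abs, Real.sq_sqrt (by positivity),
                abs_of_nonneg (by omega)]
            have s6 : ‖sq (-(n : ℤ))‖ ^ 2 = (n : ℤ) := by
              have : sq (-(n : ℤ)) = sq n := by unfold sq; rw [abs_neg]
              rw [this, s5 _ hn1]
            rw [norm_mul, norm_mul, norm_mul, mul_pow, mul_pow, mul_pow, s6, s5 _ hx1]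
            norm_num
            ring
        _ ≤ ∑ y, ‖(MM c L * (MM c L)ᴴ - (MM c L)ᴴ * MM c L) y x‖ ^ 2 := by
            rw [← Finset.sum_image (s := (Finset.Icc (1 : ℤ) B).attach)
              (g := fun n => (⟨-(n : ℤ), hin' n n.2⟩ : Ix L))
              (f := fun y => ‖(MM c L * (MM c L)ᴴ - (MM c L)ᴴ * MM c L) y x‖ ^ 2)]
            · exact Finset.sum_le_sum_of_subset_of_nonneg (Finset.subset_univ _)
                fun _ _ _ => by positivity
            · intro u _ v _ huv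
              simp only [Subtype.mk.injEq, neg_inj] at huv
              exact Subtype.ext huv
    calc ∑ p ∈ Finset.Icc (1 : ℤ) B, 2 ^ (m + 2) *
          √(∑ n ∈ Finset.Icc (1 : ℤ) B, (n * p : ℝ) * ‖FL c L p n‖ ^ 2) ^ (m + 2)
        = ∑ p ∈ (Finset.Icc (1 : ℤ) B).attach, 2 ^ (m + 2) *
          √(∑ n ∈ Finset.Icc (1 : ℤ) B, (n * (p : ℤ) : ℝ) * ‖FL c L p n‖ ^ 2) ^ (m + 2) :=
          (Finset.sum_attach _ fun p : ℤ => 2 ^ (m + 2) *
            √(∑ n ∈ Finset.Icc (1 : ℤ) B, (n * p : ℝ) * ‖FL c L p n‖ ^ 2) ^ (m + 2)).symm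
      _ ≤ ∑ p ∈ (Finset.Icc (1 : ℤ) B).attach,
          √(∑ y, ‖(MM c L * (MM c L)ᴴ - (MM c L)ᴴ * MM c L) y ⟨p, hin p p.2⟩‖ ^ 2) ^ (m + 2) :=
          Finset.sum_le_sum fun p _ => hcol ⟨p, hin p p.2⟩ p.2
      _ ≤ ∑ x, √(∑ y, ‖(MM c L * (MM c L)ᴴ - (MM c L)ᴴ * MM c L) y x‖ ^ 2) ^ (m + 2) := by
          rw [← Finset.sum_image (s := (Finset.Icc (1 : ℤ) B).attach)
            (g := fun n => (⟨(n : ℤ), hin n n.2⟩ : Ix L))
            (f := fun x => √(∑ y, ‖(MM c L * (MM c L)ᴴ - (MM c L)ᴴ * MM c L) y x‖ ^ 2) ^ (m + 2))]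
          · exact Finset.sum_le_sum_of_subset_of_nonneg (Finset.subset_univ _)
              fun _ _ _ => by positivity
          · intro u _ v _ huv
            simp only [Subtype.mk.injEq] at huv
            exact Subtype.ext huv
  have h3 := key.trans h
  have h4 : (0 : ℝ) < 2 ^ (m + 2) := by positivity
  have h5 : (2 : ℝ) ^ (m + 3) = 2 ^ (m + 2) * 2 := by ring
  rw [h5, mul_assoc] at h3
  exact le_of_mul_le_mul_left h3 h4

end Pool.Agent.Helper69.SZ
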