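import Pool.Agent.Helper69.SZ.Main1

set_option autoImplicit false
set_option linter.unusedSectionVars false

namespace Pool.Agent.Helper69.SZ

open Module LinearMap Finset Matrix
open scoped InnerProductSpace

section
variable {ι : Type} [Fintype ι] [DecidableEq ι]

theorem pow_sum (A : Matrix ι ι ℂ) (n : ℕ) : ∀ a b, (A ^ (n + 1)) a b =
    ∑ x : Fin n → ι, ∏ i : Fin (n + 1), A (Fin.cons (α := fun _ => ι) a x i)
      (Fin.snoc (α := fun _ => ι) x b i) := by
  induction n with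
  | zero =>
    intro a b
    simp [Fin.snoc]
  | succ n ih =>
    intro a b
    rw [pow_succ', Matrix.mul_apply, ← (Fin.consEquiv fun _ => ι).sum_comp, Fintype.sum_prod_type]
    refine Finset.sum_congr rfl fun y _ => ?_
    rw [ih, Finset.mul_sum]
    refine Finset.sum_congr rfl fun x _ => ?_
    rw [Fin.prod_univ_succ (n := n + 1)]
    congr 1
    refine Finset.prod_congr rfl fun i _ => ?_
    congr 1
    change _ = Fin.snoc (α := fun _ => ι) (Fin.cons (α := fun _ => ι) y x) b i.succ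
    rw [← Fin.cons_snoc_eq_snoc_cons]
    rfl

theorem trace_pow_sum (A : Matrix ι ι ℂ) (n : ℕ) : Matrix.trace (A ^ (n + 1)) =
    ∑ y : Fin (n + 1) → ι, ∏ i, A (y i) (y (finRotate (n + 1) i)) := by
  rw [← (Fin.consEquiv fun _ => ι).sum_comp, Fintype.sum_prod_type]
  simp only [Matrix.trace, Matrix.diag_apply]
  refine Finset.sum_congr rfl fun a _ => ?_
  rw [pow_sum]
  refine Finset.sum_congr rfl fun x _ => Finset.prod_congr rfl fun i _ => ?_
  congr 1
  rw [Fin.snoc_eq_cons_rotate]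
  rfl

theorem toLp_pow (M : Matrix ι ι ℂ) (k : ℕ) :
    toEuclideanLin (M ^ k) = (toEuclideanLin M : EuclideanSpace ℂ ι →ₗ[ℂ] EuclideanSpace ℂ ι) ^ k := by
  induction k with
  | zero => rw [pow_zero, pow_zero]; exact toLpLin_one (n := ι) (R := ℂ) 2
  | succ k ih => rw [pow_succ, pow_succ, ← ih]; exact toLpLin_mul (R := ℂ) 2 2 2 _ _

theorem trace_toLp (M : Matrix ι ι ℂ) :
    LinearMap.trace ℂ (EuclideanSpace ℂ ι) (toEuclideanLin M) = Matrix.trace M := by
  rw [LinearMap.trace_eq_sum_inner _ (EuclideanSpace.basisFun ι ℂ)]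
  refine Finset.sum_congr rfl fun i _ => ?_
  simp [toEuclideanLin, Matrix.toLpLin_apply, EuclideanSpace.inner_single_left]

/-- The matrix inequality, for matrices. -/
theorem matrix_ineq' (M : Matrix ι ι ℂ) (m : ℕ) :
    ∑ x, √(∑ y, ‖(M * Mᴴ - Mᴴ * M) y x‖ ^ 2) ^ (m + 2) ≤ 2 ^ (m + 3) *
      ((Matrix.trace ((M * Mᴴ) ^ (m + 2))).re - (Matrix.trace (M ^ (2 * (m + 2)))).re) := by
  have h := matrix_ineq (toEuclideanLin M) (toEuclideanLin Mᴴ)
    (Matrix.toEuclideanLin_conjTranspose_eq_adjoint M) (EuclideanSpace.basisFun ι ℂ) m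
  have e1 : (toEuclideanLin M : EuclideanSpace ℂ ι →ₗ[ℂ] EuclideanSpace ℂ ι) * toEuclideanLin Mᴴ =
      toEuclideanLin (M * Mᴴ) := (toLpLin_mul (R := ℂ) 2 2 2 _ _).symm
  have e2 : (toEuclideanLin Mᴴ : EuclideanSpace ℂ ι →ₗ[ℂ] EuclideanSpace ℂ ι) * toEuclideanLin M =
      toEuclideanLin (Mᴴ * M) := (toLpLin_mul (R := ℂ) 2 2 2 _ _).symm
  rw [e1, e2, ← toLp_pow, ← toLp_pow, trace_toLp, trace_toLp, ← map_sub] at h
  refine le_trans (le_of_eq (Finset.sum_congr rfl fun x _ => ?_)) h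
  rw [EuclideanSpace.norm_eq]
  congr 2
  refine Finset.sum_congr rfl fun y _ => ?_
  congr 2
  rw [EuclideanSpace.basisFun_apply, toEuclideanLin, Matrix.toLpLin_apply]
  simp only [PiLp.ofLp_single]
  rw [Matrix.mulVec_single_one]
  rfl

end

end Pool.Agent.Helper69.SZ
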